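import Mathlib
import Pool.Agent.X323.TV.Core

set_option autoImplicit false

/-!
# The truncated inequality of Vojta: the exceptional set must grow as `ε` decreases

Let `n ≥ 2`, let `D` be the sum of the `n + 1` coordinate hyperplanes of `ℙ^n` over `ℚ`, of a
hypersurface `F = 0` which contains no coordinate vertex and whose rational points off the coordinate
hyperplanes are dense in it, and of an arbitrary further hypersurface `E = 0` (possibly none). Let
`G = 0` be a hypersurface outside of which the truncated inequality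
`h_{K + D}(P) ≤ N_S^{(1)}(D, P) + ε h(P) + C` holds for all rational points `P` off `D`. Then
`G E = 0` contains all cosets of one-dimensional subtori of the torus `x_0 ⋯ x_n ≠ 0` which are
tangent to `F = 0` at a rational point, not contained in `F = 0`, and given by exponents `k i` with
`ε k i < 1`. It follows that the degree of `G` tends to infinity as `ε` tends to zero; in particular
no proper closed subset serves all `ε`.
-/

namespace Pool.Agent.Results.MP_44a246_nt.ExceptionalSetMustGrow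

open MvPolynomial Pool.Agent.X323.TV

/-- `x` is a primitive integer vector; every rational point of a projective space is represented by
exactly two of them, `x` and `-x` -/
def IsPrimitive {M : ℕ} (x : Fin M → ℤ) : Prop :=
  Finset.univ.gcd x = 1

/-- `max |x_i|`, the multiplicative height of the point given by a primitive `x` -/
def height {M : ℕ} (x : Fin M → ℤ) : ℕ :=
  Finset.univ.sup (fun i => (x i).natAbs)

/-- The truncated counting function `N_S^{(1)}(D, x)` of the divisor `D` which is the sum of the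
coordinate hyperplanes and of the hypersurfaces `F = 0` and `E = 0`: the sum of `log p` over the
primes `p ∉ S` which divide `x_0 ⋯ x_n F(x) E(x)` (`x` primitive). -/
noncomputable def truncated {M : ℕ} (S : Finset ℕ) (F E : MvPolynomial (Fin M) ℤ)
    (x : Fin M → ℤ) : ℝ :=
  ∑ p ∈ ((∏ i, x i) * eval x F * eval x E).natAbs.primeFactors \ S, Real.log p

/-- The truncated inequality `h_{K + D}(P) ≤ N_S^{(1)}(D, P) + ε h(P) + C` for all rational points
`P` of projective space off `D` and off the hypersurface `G = 0`. Here `D` is the sum of the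
coordinate hyperplanes and of the hypersurfaces `F = 0` of degree `e` and `E = 0` of degree `e'`, so
that `h_{K + D} = (e + e') h`. -/
def Inequality {n : ℕ} (e : ℕ) (F : MvPolynomial (Fin (n + 1)) ℤ) (e' : ℕ)
    (E : MvPolynomial (Fin (n + 1)) ℤ) (S : Finset ℕ) (ε C : ℝ)
    (G : MvPolynomial (Fin (n + 1)) ℚ) : Prop :=
  ∀ x : Fin (n + 1) → ℤ, IsPrimitive x → (∀ i, x i ≠ 0) → eval x F ≠ 0 → eval x E ≠ 0 →
    eval (fun i => (x i : ℚ)) G ≠ 0 →
    ((e : ℝ) + e') * Real.log (height x) ≤
      truncated S F E x + ε * Real.log (height x) + C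

/-- The rational points of `F = 0` off the coordinate hyperplanes are Zariski dense in `F = 0`:
every polynomial over `ℚ` which vanishes at all of them is divisible by `F`. -/
def DensePoints {M : ℕ} (F : MvPolynomial (Fin M) ℤ) : Prop :=
  ∀ P : MvPolynomial (Fin M) ℚ,
    (∀ u : Fin M → ℤ, (∀ i, u i ≠ 0) → eval u F = 0 → eval (fun i => (u i : ℚ)) P = 0) →
      map (Int.castRingHom ℚ) F ∣ P

/-- The curve `t ↦ (u_0 t ^ k_0 : ⋯ : u_n t ^ k_n)`, a coset of a one-dimensional subtorus, passes
for `t = 1` through the rational point `u` of `F = 0` (off the coordinate hyperplanes), is tangent to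
`F = 0` there (the derivative of `F(u_i t ^ k_i)` at `t = 1` is zero), and is not contained in
`F = 0`. The least exponent is zero. -/
structure Tangent {M : ℕ} (F : MvPolynomial (Fin M) ℤ) (u : Fin M → ℤ) (k : Fin M → ℕ) : Prop where
  off : ∀ i, u i ≠ 0
  on : eval u F = 0
  tangent : ∑ i, (k i : ℤ) * u i * eval u (pderiv i F) = 0
  notIn : ∃ t : ℤ, eval (fun i => u i * t ^ k i) F ≠ 0
  zero : ∃ j, k j = 0

theorem le_height {M : ℕ} (x : Fin M → ℤ) (i : Fin M) : |(x i : ℝ)| ≤ height x := by
  have h : (x i).natAbs ≤ height x :=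
    Finset.le_sup (f := fun i => (x i).natAbs) (Finset.mem_univ i)
  have h2 : (((x i).natAbs : ℕ) : ℝ) ≤ (height x : ℝ) := by exact_mod_cast h
  rwa [Nat.cast_natAbs, Int.cast_abs] at h2

theorem eval_le {M : ℕ} {e : ℕ} (E : MvPolynomial (Fin M) ℤ) (hE : E.IsHomogeneous e)
    (x : Fin M → ℤ) :
    |((eval x E : ℤ) : ℝ)| ≤ (∑ s ∈ E.support, |((coeff s E : ℤ) : ℝ)|) * (height x : ℝ) ^ e := by
  rw [eval_eq]
  push_cast
  refine (Finset.abs_sum_le_sum_abs _ _).trans ?_
  rw [Finset.sum_mul]
  refine Finset.sum_le_sum fun s hs => ?_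
  rw [abs_mul]
  refine mul_le_mul_of_nonneg_left ?_ (abs_nonneg _)
  rw [Finset.abs_prod]
  have hdeg : ∑ i ∈ s.support, s i = e := by
    have := hE (mem_support_iff.1 hs)
    rw [← this, Finsupp.weight_apply, Finsupp.sum]
    simp
  calc ∏ i ∈ s.support, |((x i : ℝ)) ^ s i|
      ≤ ∏ i ∈ s.support, (height x : ℝ) ^ s i := by
        refine Finset.prod_le_prod (fun i _ => abs_nonneg _) fun i _ => ?_
        rw [abs_pow]
        exact pow_le_pow_left₀ (abs_nonneg _) (le_height x i) _
    _ = (height x : ℝ) ^ e := by rw [Finset.prod_pow_eq_pow_sum, hdeg]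

theorem eval_scale {R : Type} [CommRing R] {M d : ℕ} (F : MvPolynomial (Fin M) R)
    (hF : F.IsHomogeneous d) (g : R) (x : Fin M → R) :
    eval (fun i => g * x i) F = g ^ d * eval x F := by
  rw [eval_eq, eval_eq, Finset.mul_sum]
  refine Finset.sum_congr rfl fun s hs => ?_
  have hdeg : ∑ i ∈ s.support, s i = d := by
    have := hF (mem_support_iff.1 hs)
    rw [← this, Finsupp.weight_apply, Finsupp.sum]
    simp
  rw [Finset.prod_congr rfl fun i _ => mul_pow g (x i) (s i), Finset.prod_mul_distrib,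
    Finset.prod_pow_eq_pow_sum, hdeg]
  ring

theorem eval_cast {M : ℕ} (E : MvPolynomial (Fin M) ℤ) (x : Fin M → ℤ) :
    eval (fun i => (x i : ℚ)) (map (Int.castRingHom ℚ) E) = ((eval x E : ℤ) : ℚ) := by
  rw [eval_map]
  exact (eval₂_comp_left (Int.castRingHom ℚ) (RingHom.id ℤ) x E).symm

/-- The exceptional hypersurface and `E = 0` together contain the tangent cosets. -/
theorem core {n : ℕ} {e : ℕ} {F : MvPolynomial (Fin (n + 1)) ℤ} (hF : F.IsHomogeneous e)
    (he : 1 ≤ e) {e' : ℕ} {E : MvPolynomial (Fin (n + 1)) ℤ} (hE : E.IsHomogeneous e')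
    {S : Finset ℕ} {ε C : ℝ} {δ : ℕ} {G : MvPolynomial (Fin (n + 1)) ℚ} (hG : G.IsHomogeneous δ)
    (hineq : Inequality e F e' E S ε C G) {u : Fin (n + 1) → ℤ} {k : Fin (n + 1) → ℕ}
    (ht : Tangent F u k) (hk : ∀ i, ε * k i < 1) :
    onCurve (fun i => (u i : ℚ)) k (G * map (Int.castRingHom ℚ) E) = 0 := by
  classical
  by_contra hne
  obtain ⟨hu, hFu, htan, ⟨t0, ht0⟩, ⟨j0, hj0⟩⟩ := ht
  -- the polynomial `F (u T ^ k) = (T - 1) ^ 2 q (T)`
  set p : Polynomial ℤ := onCurve u k F with hp
  have hp0 : p ≠ 0 := by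
    intro h
    apply ht0
    rw [← eval_onCurve, ← hp, h, Polynomial.eval_zero]
  have hp1 : p.IsRoot 1 := by
    rw [Polynomial.IsRoot, hp, eval_onCurve_one, hFu]
  obtain ⟨q1, hq1⟩ := Polynomial.dvd_iff_isRoot.2 hp1
  have hq1r : q1.IsRoot 1 := by
    have h1 := derivative_onCurve_one u k F
    rw [htan, ← hp, hq1, Polynomial.derivative_mul, Polynomial.eval_add, Polynomial.eval_mul,
      Polynomial.eval_mul] at h1
    simpa using h1
  obtain ⟨q, hq⟩ := Polynomial.dvd_iff_isRoot.2 hq1r
  have hpq : p = (Polynomial.X - Polynomial.C 1) ^ 2 * q := by rw [hq1, hq]; ring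
  have hq0 : q ≠ 0 := by
    rintro rfl
    exact hp0 (by rw [hpq, mul_zero])
  -- the largest exponent
  obtain ⟨i0, _, hi0⟩ := Finset.exists_max_image (Finset.univ : Finset (Fin (n + 1))) k
    Finset.univ_nonempty
  set d := k i0 with hd
  have hkd : ∀ i, k i ≤ d := fun i => hi0 i (Finset.mem_univ i)
  have hdeg : q.natDegree + 2 ≤ e * d := by
    have h1 : p.natDegree = q.natDegree + 2 := by
      rw [hpq, Polynomial.natDegree_mul (pow_ne_zero _ (Polynomial.X_sub_C_ne_zero 1)) hq0,
        Polynomial.natDegree_pow, Polynomial.natDegree_X_sub_C]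
      omega
    rw [← h1]
    exact natDegree_onCurve_le u k F hF hkd
  have hd1 : 1 ≤ d := by
    by_contra h
    have : d = 0 := by omega
    rw [this] at hdeg
    omega
  have hdR : (1 : ℝ) ≤ d := by exact_mod_cast hd1
  have heR : (1 : ℝ) ≤ e := by exact_mod_cast he
  have hεd : ε * d < 1 := hk i0
  have hε1 : ε < 1 := by
    by_contra h
    push Not at h
    nlinarith
  -- constants
  set Lq : ℝ := ∑ i ∈ Finset.range (q.natDegree + 1), |((q.coeff i : ℤ) : ℝ)| with hLq
  have hLq0 : 0 < Lq := by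
    refine lt_of_lt_of_le ?_ (Finset.single_le_sum (f := fun i => |((q.coeff i : ℤ) : ℝ)|)
      (fun j _ => abs_nonneg _) (Finset.mem_range.2 (Nat.lt_succ_self q.natDegree)))
    have : (q.leadingCoeff : ℝ) ≠ 0 := by exact_mod_cast Polynomial.leadingCoeff_ne_zero.2 hq0
    exact abs_pos.2 this
  set L2 : ℝ := (∑ s ∈ E.support, |((coeff s E : ℤ) : ℝ)|) with hL2
  have hE0 : E ≠ 0 := by
    rintro rfl
    apply hne
    rw [map_zero, mul_zero, map_zero]
  have hL20 : 0 < L2 := by
    obtain ⟨s, hs⟩ := support_nonempty.2 hE0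
    refine lt_of_lt_of_le ?_ (Finset.single_le_sum (f := fun s => |((coeff s E : ℤ) : ℝ)|)
      (fun j _ => abs_nonneg _) hs)
    have : ((coeff s E : ℤ) : ℝ) ≠ 0 := by exact_mod_cast mem_support_iff.1 hs
    positivity
  have hprodu : (∏ i, u i) ≠ 0 := Finset.prod_ne_zero_iff.2 fun i _ => hu i
  set U : ℝ := Real.log |((∏ i, u i : ℤ) : ℝ)| with hU
  set c0 : ℝ := Real.log |(u j0 : ℝ)| with hc0
  -- the choice of m
  have hev : ∀ᶠ m : ℕ in Filter.atTop,
      Real.log 2 + U + Real.log Lq + Real.log L2 + C + ((e : ℝ) - ε) * c0 <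
        ((1 - ε * d) * Real.log 2) * m := by
    have hpos : 0 < (1 - ε * d) * Real.log 2 :=
      mul_pos (by linarith) (Real.log_pos (by norm_num))
    exact (tendsto_natCast_atTop_atTop.const_mul_atTop hpos).eventually_gt_atTop _
  obtain ⟨m, hm1, hm2, hm3, hm4⟩ := ((eventually_ne _ hne).and ((eventually_ne q hq0).and
    (hev.and (Filter.eventually_ge_atTop 1)))).exists
  set t : ℤ := ((2 ^ m : ℕ) : ℤ) with htdef
  have ht2 : 2 ≤ t := by
    have : 2 ^ 1 ≤ 2 ^ m := Nat.pow_le_pow_right (by norm_num) hm4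
    rw [htdef]
    exact_mod_cast this
  have htR : (2 : ℝ) ≤ t := by exact_mod_cast ht2
  set x : Fin (n + 1) → ℤ := fun i => u i * t ^ k i with hx
  have hx0 : ∀ i, x i ≠ 0 := fun i => mul_ne_zero (hu i) (pow_ne_zero _ (by omega))
  have hFx : eval x F = (t - 1) ^ 2 * q.eval t := by
    rw [hx, ← eval_onCurve, ← hp, hpq]
    simp
  have hxQ : (fun i => (x i : ℚ)) = fun i => (u i : ℚ) * ((2 ^ m : ℕ) : ℚ) ^ k i := by
    funext i
    rw [hx, htdef]
    push_cast
    rfl
  have hGEx : eval (fun i => (x i : ℚ)) (G * map (Int.castRingHom ℚ) E) ≠ 0 := by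
    rw [hxQ, ← eval_onCurve]
    exact hm1
  rw [map_mul, eval_cast] at hGEx
  have hGx : eval (fun i => (x i : ℚ)) G ≠ 0 := left_ne_zero_of_mul hGEx
  have hEx : eval x E ≠ 0 := by
    intro h
    apply hGEx
    rw [h]
    simp
  -- the primitive vector
  obtain ⟨x', hx', hprim⟩ := Finset.extract_gcd x (s := (Finset.univ : Finset (Fin (n + 1))))
    Finset.univ_nonempty
  set g : ℤ := Finset.univ.gcd x with hg
  have hgx : ∀ i, x i = g * x' i := fun i => hx' i (Finset.mem_univ i)
  have hg0 : g ≠ 0 := by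
    intro h0
    apply hx0 0
    rw [hgx, h0, zero_mul]
  have hx'0 : ∀ i, x' i ≠ 0 := by
    intro i h0
    apply hx0 i
    rw [hgx, h0, mul_zero]
  have hxg : x = fun i => g * x' i := funext hgx
  have hFs : eval x F = g ^ e * eval x' F := by
    rw [hxg, eval_scale F hF]
  have hEs : eval x E = g ^ e' * eval x' E := by
    rw [hxg, eval_scale E hE]
  have hqt : q.eval t ≠ 0 := hm2
  have hFx0 : eval x F ≠ 0 := by
    rw [hFx]
    exact mul_ne_zero (pow_ne_zero _ (by omega)) hqt
  have hFx' : eval x' F ≠ 0 := by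
    intro h
    apply hFx0
    rw [hFs, h, mul_zero]
  have hEx' : eval x' E ≠ 0 := by
    intro h
    apply hEx
    rw [hEs, h, mul_zero]
  have hGx' : eval (fun i => (x' i : ℚ)) G ≠ 0 := by
    intro h
    apply hGx
    have h1 : (fun i => (x i : ℚ)) = fun i => (g : ℚ) * (x' i : ℚ) := by
      funext i
      rw [hgx i]
      push_cast
      rfl
    rw [h1, eval_scale G hG, h, mul_zero]
  have hmain := hineq x' hprim hx'0 hFx' hEx' hGx'
  -- the truncated counting function
  set W : ℤ := 2 * (∏ i, u i) * (t - 1) * q.eval t * eval x' E with hW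
  have hW0 : W ≠ 0 := by
    refine mul_ne_zero (mul_ne_zero (mul_ne_zero (mul_ne_zero two_ne_zero hprodu) (by omega))
      hqt) hEx'
  have htr : truncated S F E x' ≤ Real.log |(W : ℝ)| := by
    refine sum_log_primes_le hW0 fun p hpm => ?_
    have hpm' := (Finset.mem_sdiff.1 hpm).1
    have hpp := Nat.prime_of_mem_primeFactors hpm'
    have hpi : Prime (p : ℤ) := Nat.prime_iff_prime_int.1 hpp
    have hdv : (p : ℤ) ∣ (∏ i, x' i) * eval x' F * eval x' E :=
      Int.natCast_dvd.2 (Nat.dvd_of_mem_primeFactors hpm')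
    refine ⟨hpp, ?_⟩
    rcases hpi.dvd_or_dvd hdv with h | h
    · rcases hpi.dvd_or_dvd h with h | h
      · obtain ⟨i, _, hi⟩ := (hpi.dvd_finsetProd_iff _).1 h
        have h2 : (p : ℤ) ∣ u i * t ^ k i := by
          have : x i = u i * t ^ k i := rfl
          rw [← this, hgx i]
          exact Dvd.dvd.mul_left hi _
        rcases hpi.dvd_or_dvd h2 with h3 | h3
        · have h4 : (p : ℤ) ∣ ∏ i, u i := h3.trans (Finset.dvd_prod_of_mem u (Finset.mem_univ i))
          rw [hW]
          exact (((h4.mul_left 2).mul_right _).mul_right _).mul_right _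
        · have h4 := hpi.dvd_of_dvd_pow h3
          rw [htdef] at h4
          push_cast at h4
          have h5 := hpi.dvd_of_dvd_pow h4
          rw [hW]
          exact (((h5.mul_right _).mul_right _).mul_right _).mul_right _
      · have h2 : (p : ℤ) ∣ (t - 1) ^ 2 * q.eval t := by
          rw [← hFx, hFs]
          exact Dvd.dvd.mul_left h _
        rcases hpi.dvd_or_dvd h2 with h3 | h3
        · have h4 := hpi.dvd_of_dvd_pow h3
          rw [hW]
          exact ((h4.mul_left _).mul_right _).mul_right _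
        · rw [hW]
          exact (h3.mul_left _).mul_right _
    · rw [hW]
      exact h.mul_left _
  -- the height
  set h : ℝ := Real.log (height x') with hh
  have hhpos : (0 : ℝ) < height x' := by
    have h1 := le_height x' i0
    have h2 : (0 : ℝ) < |(x' i0 : ℝ)| := by
      have : (x' i0 : ℝ) ≠ 0 := by exact_mod_cast hx'0 i0
      exact abs_pos.2 this
    linarith
  have hlogt : Real.log t = m * Real.log 2 := by
    rw [htdef]; push_cast; rw [Real.log_pow]
  have htpos : (0 : ℝ) < t := by linarith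
  have hlow : d * Real.log t - c0 ≤ h := by
    have h1 : (t : ℝ) ^ d ≤ |(x i0 : ℝ)| := by
      have h2 : (x i0 : ℝ) = (u i0 : ℝ) * (t : ℝ) ^ d := by
        rw [hx]; push_cast; rfl
      rw [h2, abs_mul, abs_of_pos (pow_pos htpos d)]
      have h3 : (1 : ℝ) ≤ |(u i0 : ℝ)| := by exact_mod_cast Int.one_le_abs (hu i0)
      nlinarith [pow_pos htpos d]
    have h2 : |(g : ℝ)| ≤ |(u j0 : ℝ)| := by
      have h3 : g ∣ u j0 := by
        have h4 : g ∣ x j0 := Dvd.intro _ (hgx j0).symm
        have h5 : x j0 = u j0 := by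
          change u j0 * t ^ k j0 = u j0
          rw [hj0, pow_zero, mul_one]
        rwa [h5] at h4
      have h4 : |g| ≤ |u j0| := Int.le_of_dvd (abs_pos.2 (hu j0)) ((abs_dvd_abs _ _).2 h3)
      exact_mod_cast h4
    have h3 : (t : ℝ) ^ d ≤ |(u j0 : ℝ)| * height x' := by
      refine h1.trans ?_
      have h4 : (x i0 : ℝ) = (g : ℝ) * (x' i0 : ℝ) := by rw [hgx i0]; push_cast; rfl
      rw [h4, abs_mul]
      exact mul_le_mul h2 (le_height x' i0) (abs_nonneg _) (abs_nonneg _)
    have h4 := Real.log_le_log (pow_pos htpos d) h3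
    have h5 : (u j0 : ℝ) ≠ 0 := by exact_mod_cast hu j0
    rw [Real.log_pow, Real.log_mul (abs_pos.2 h5).ne' hhpos.ne'] at h4
    linarith
  -- the size of W
  have hWle : Real.log |(W : ℝ)| ≤ Real.log 2 + U + Real.log t + (Real.log Lq +
      ((e : ℝ) * d - 2) * Real.log t) + (Real.log L2 + e' * h) := by
    have hE1 : Real.log |((eval x' E : ℤ) : ℝ)| ≤ Real.log L2 + e' * h := by
      have h1 := eval_le E hE x'
      have h2 : (0 : ℝ) < |((eval x' E : ℤ) : ℝ)| := by
        have : ((eval x' E : ℤ) : ℝ) ≠ 0 := by exact_mod_cast hEx'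
        exact abs_pos.2 this
      have h3 := Real.log_le_log h2 h1
      rw [Real.log_mul hL20.ne' (pow_pos hhpos _).ne', Real.log_pow] at h3
      exact h3
    have hlogt0 : 0 ≤ Real.log t := Real.log_nonneg (by linarith)
    have hq2 : Real.log |((q.eval t : ℤ) : ℝ)| ≤ Real.log Lq + ((e : ℝ) * d - 2) * Real.log t := by
      have h1 := abs_eval_le q (t := t) (by omega)
      have h2 : (0 : ℝ) < |((q.eval t : ℤ) : ℝ)| := by
        have : ((q.eval t : ℤ) : ℝ) ≠ 0 := by exact_mod_cast hqt
        exact abs_pos.2 this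
      have h3 := Real.log_le_log h2 h1
      rw [Real.log_mul hLq0.ne' (pow_pos htpos _).ne', Real.log_pow] at h3
      have h4 : (q.natDegree : ℝ) ≤ (e : ℝ) * d - 2 := by
        have : ((q.natDegree + 2 : ℕ) : ℝ) ≤ ((e * d : ℕ) : ℝ) := by exact_mod_cast hdeg
        push_cast at this
        linarith
      have h5 := mul_le_mul_of_nonneg_right h4 hlogt0
      linarith
    have ht1 : Real.log |((t - 1 : ℤ) : ℝ)| ≤ Real.log t := by
      push_cast
      rw [abs_of_pos (by linarith)]
      exact Real.log_le_log (by linarith) (by linarith)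
    have hsplit : Real.log |(W : ℝ)| = Real.log 2 + U + Real.log |((t - 1 : ℤ) : ℝ)| +
        Real.log |((q.eval t : ℤ) : ℝ)| + Real.log |((eval x' E : ℤ) : ℝ)| := by
      have a1 : ((∏ i, u i : ℤ) : ℝ) ≠ 0 := by exact_mod_cast hprodu
      have a2 : ((t - 1 : ℤ) : ℝ) ≠ 0 := by
        push_cast
        linarith
      have a3 : ((q.eval t : ℤ) : ℝ) ≠ 0 := by exact_mod_cast hqt
      have a4 : ((eval x' E : ℤ) : ℝ) ≠ 0 := by exact_mod_cast hEx'
      have hWc : (W : ℝ) = 2 * ((∏ i, u i : ℤ) : ℝ) * ((t - 1 : ℤ) : ℝ) *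
          ((q.eval t : ℤ) : ℝ) * ((eval x' E : ℤ) : ℝ) := by
        rw [hW]
        push_cast
        ring
      rw [hWc, abs_mul, abs_mul, abs_mul, abs_mul,
        Real.log_mul (mul_ne_zero (mul_ne_zero (mul_ne_zero (by norm_num) (abs_ne_zero.2 a1))
          (abs_ne_zero.2 a2)) (abs_ne_zero.2 a3)) (abs_ne_zero.2 a4),
        Real.log_mul (mul_ne_zero (mul_ne_zero (by norm_num) (abs_ne_zero.2 a1))
          (abs_ne_zero.2 a2)) (abs_ne_zero.2 a3),
        Real.log_mul (mul_ne_zero (by norm_num) (abs_ne_zero.2 a1)) (abs_ne_zero.2 a2),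
        Real.log_mul (by norm_num) (abs_ne_zero.2 a1), abs_two]
    rw [hsplit]
    linarith
  -- the contradiction
  have hfin : ((e : ℝ) - ε) * h ≤ Real.log 2 + U + Real.log Lq + Real.log L2 + C +
      ((e : ℝ) * d - 1) * Real.log t := by
    have := htr.trans hWle
    nlinarith
  have h1 : ((e : ℝ) - ε) * (d * Real.log t - c0) ≤ ((e : ℝ) - ε) * h :=
    mul_le_mul_of_nonneg_left hlow (by linarith)
  have h2 : (1 - ε * d) * Real.log 2 * m = (1 - ε * d) * Real.log t := by
    rw [hlogt]; ring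
  rw [h2] at hm3
  nlinarith

/-- through every rational point of `F = 0` off the coordinate hyperplanes there is a tangent coset -/
theorem exists_tangent {n : ℕ} (hn : 2 ≤ n) {e : ℕ} {F : MvPolynomial (Fin (n + 1)) ℤ}
    (hF : F.IsHomogeneous e) (hvert : ∀ i, coeff (Finsupp.single i e) F ≠ 0)
    {u : Fin (n + 1) → ℤ} (hu : ∀ i, u i ≠ 0) (hFu : eval u F = 0) : ∃ k, Tangent F u k := by
  classical
  have heuler : ∑ i, u i * eval u (pderiv i F) = 0 := by
    have h1 := congrArg (eval u) hF.sum_X_mul_pderiv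
    rw [map_sum, map_nsmul, hFu, smul_zero] at h1
    rw [← h1]
    exact Finset.sum_congr rfl fun i _ => by rw [map_mul, eval_X]
  obtain ⟨k, hk, hk0, i, hi⟩ := exists_k hn (fun i => u i * eval u (pderiv i F)) heuler
  have hne := onCurve_ne_zero u k F hF i (hvert i) (hu i) hi
  obtain ⟨m, hm⟩ := (eventually_ne _ hne).exists
  refine ⟨k, hu, hFu, ?_, ⟨((2 ^ m : ℕ) : ℤ), ?_⟩, hk0⟩
  · rw [← hk]
    exact Finset.sum_congr rfl fun i _ => by ring
  · rw [← eval_onCurve]
    exact hm

/-- a polynomial which vanishes on all tangent cosets is zero -/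
theorem all_vanish {n : ℕ} (hn : 2 ≤ n) {e : ℕ} {F : MvPolynomial (Fin (n + 1)) ℤ}
    (hF : F.IsHomogeneous e) (he : 1 ≤ e) (hvert : ∀ i, coeff (Finsupp.single i e) F ≠ 0)
    (hdense : DensePoints F) : ∀ N : ℕ, ∀ R : MvPolynomial (Fin (n + 1)) ℚ, R.totalDegree ≤ N →
      (∀ u k, Tangent F u k → onCurve (fun i => (u i : ℚ)) k R = 0) → R = 0 := by
  intro N
  induction N using Nat.strong_induction_on with
  | _ N ih =>
  intro R hR hcurve
  by_contra hne
  have hF0 : F ≠ 0 := by
    rintro rfl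
    exact hvert 0 (by simp)
  set FQ : MvPolynomial (Fin (n + 1)) ℚ := map (Int.castRingHom ℚ) F with hFQ
  have hinj : Function.Injective (Int.castRingHom ℚ) := Int.cast_injective
  have hFQ0 : FQ ≠ 0 := by
    intro h
    exact hF0 (map_injective _ hinj (by rw [← hFQ, h, map_zero]))
  have hFQd : FQ.totalDegree = e := (hF.map _).totalDegree hFQ0
  obtain ⟨R1, hR1⟩ := hdense R fun u hu hFu => by
    obtain ⟨k, hk⟩ := exists_tangent hn hF hvert hu hFu
    have h1 := hcurve u k hk
    rw [← eval_onCurve_one (fun i => (u i : ℚ)) k R, h1, Polynomial.eval_zero]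
  rw [← hFQ] at hR1
  have hR10 : R1 ≠ 0 := by
    rintro rfl
    exact hne (by rw [hR1, mul_zero])
  have hdeg : R.totalDegree = e + R1.totalDegree := by
    rw [hR1, totalDegree_mul_of_isDomain hFQ0 hR10, hFQd]
  refine hR10 (ih (N - 1) (by omega) R1 (by omega) fun u k hk => ?_)
  have h1 := hcurve u k hk
  rw [hR1, map_mul] at h1
  rcases mul_eq_zero.1 h1 with h2 | h2
  · exfalso
    obtain ⟨t, ht⟩ := hk.notIn
    apply ht
    have h3 := congrArg (Polynomial.eval (t : ℚ)) h2
    rw [eval_onCurve, Polynomial.eval_zero] at h3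
    have h4 : (fun i => (u i : ℚ) * (t : ℚ) ^ k i) = fun i => ((u i * t ^ k i : ℤ) : ℚ) := by
      funext i
      push_cast
      rfl
    rw [h4, hFQ, eval_cast] at h3
    exact_mod_cast h3
  · exact h2

/-- the polynomials of bounded degree which vanish on all tangent cosets with exponents at most `B`
are zero, if `B` is large -/
theorem exists_bound {n : ℕ} (hn : 2 ≤ n) {e : ℕ} {F : MvPolynomial (Fin (n + 1)) ℤ}
    (hF : F.IsHomogeneous e) (he : 1 ≤ e) (hvert : ∀ i, coeff (Finsupp.single i e) F ≠ 0)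
    (hdense : DensePoints F) (N : ℕ) : ∃ B : ℕ, ∀ R : MvPolynomial (Fin (n + 1)) ℚ,
      R.totalDegree ≤ N → (∀ u k, Tangent F u k → (∀ i, k i ≤ B) →
        onCurve (fun i => (u i : ℚ)) k R = 0) → R = 0 := by
  classical
  -- the decreasing sequence of subspaces
  let V : ℕ → Submodule ℚ (restrictTotalDegree (Fin (n + 1)) ℚ N) := fun B =>
    { carrier := {R | ∀ u k, Tangent F u k → (∀ i, k i ≤ B) →
        onCurve (fun i => (u i : ℚ)) k (R : MvPolynomial (Fin (n + 1)) ℚ) = 0}
      add_mem' := by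
        intro a b ha hb u k hk hB
        rw [Submodule.coe_add, map_add, ha u k hk hB, hb u k hk hB, add_zero]
      zero_mem' := by
        intro u k _ _
        rw [Submodule.coe_zero, map_zero]
      smul_mem' := by
        intro c a ha u k hk hB
        rw [Submodule.coe_smul, map_smul, ha u k hk hB, smul_zero] }
  have hV : ∀ a b, a ≤ b → V b ≤ V a := by
    intro a b hab R hR u k hk hB
    exact hR u k hk fun i => (hB i).trans hab
  let f : ℕ →o (Submodule ℚ (restrictTotalDegree (Fin (n + 1)) ℚ N))ᵒᵈ :=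
    ⟨fun B => OrderDual.toDual (V B), fun a b hab => hV a b hab⟩
  obtain ⟨B, hB⟩ := IsArtinian.monotone_stabilizes f
  refine ⟨B, fun R hR hcurve => ?_⟩
  have hRm : R ∈ restrictTotalDegree (Fin (n + 1)) ℚ N := by
    rw [mem_restrictTotalDegree]; exact hR
  have hRB : (⟨R, hRm⟩ : restrictTotalDegree (Fin (n + 1)) ℚ N) ∈ V B := hcurve
  refine all_vanish hn hF he hvert hdense N R hR fun u k hk => ?_
  obtain ⟨i0, _, hi0⟩ := Finset.exists_max_image (Finset.univ : Finset (Fin (n + 1))) k
    Finset.univ_nonempty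
  have h1 : V B = V (max B (k i0)) := hB (max B (k i0)) (le_max_left _ _)
  rw [h1] at hRB
  exact hRB u k hk fun i => (hi0 i (Finset.mem_univ i)).trans (le_max_right _ _)

/-- **Theorem.** Let `n ≥ 2`, let `D` be the sum of the `n + 1` coordinate hyperplanes of `ℙ^n` over
`ℚ`, of a hypersurface `F = 0` of degree `e ≥ 1` which contains no coordinate vertex and whose
rational points off the coordinate hyperplanes are dense in it, and of an arbitrary hypersurface
`E = 0` of degree `e'` (possibly none: `e' = 0`, `E = 1`).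
(1) If the truncated inequality with `ε` and `C` holds outside the hypersurface `G = 0`, then `G E`
vanishes on every tangent coset whose exponents satisfy `ε k_i < 1`.
(2) For every `δ` there is `ε > 0` such that the truncated inequality holds for no `S`, no `C` and no
exceptional hypersurface `G = 0` of degree at most `δ`. -/
theorem result (n : ℕ) (hn : 2 ≤ n) (e : ℕ) (he : 1 ≤ e) (F : MvPolynomial (Fin (n + 1)) ℤ)
    (hF : F.IsHomogeneous e) (hvert : ∀ i, coeff (Finsupp.single i e) F ≠ 0)
    (hdense : DensePoints F) (e' : ℕ) (E : MvPolynomial (Fin (n + 1)) ℤ)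
    (hE : E.IsHomogeneous e') (hE0 : E ≠ 0) :
    (∀ (S : Finset ℕ) (ε C : ℝ) (δ : ℕ) (G : MvPolynomial (Fin (n + 1)) ℚ), G.IsHomogeneous δ →
      Inequality e F e' E S ε C G → ∀ (u : Fin (n + 1) → ℤ) (k : Fin (n + 1) → ℕ),
        Tangent F u k → (∀ i, ε * k i < 1) → ∀ t : ℚ,
          eval (fun i => (u i : ℚ) * t ^ k i) (G * map (Int.castRingHom ℚ) E) = 0) ∧
    ∀ δ : ℕ, ∃ ε : ℝ, 0 < ε ∧ ∀ (S : Finset ℕ) (C : ℝ) (δ' : ℕ)
      (G : MvPolynomial (Fin (n + 1)) ℚ), δ' ≤ δ → G.IsHomogeneous δ' → G ≠ 0 →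
        ¬ Inequality e F e' E S ε C G := by
  refine ⟨fun S ε C δ G hG hineq u k ht hk t => ?_, fun δ => ?_⟩
  · rw [← eval_onCurve, core hF he hE hG hineq ht hk, Polynomial.eval_zero]
  · obtain ⟨B, hB⟩ := exists_bound hn hF he hvert hdense (δ + e')
    have hB1 : (0 : ℝ) < B + 1 := by positivity
    refine ⟨1 / (B + 1), by positivity, fun S C δ' G hδ hG hG0 hineq => ?_⟩
    have hinj : Function.Injective (Int.castRingHom ℚ) := Int.cast_injective
    have hEQ0 : map (Int.castRingHom ℚ) E ≠ 0 := by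
      intro h
      exact hE0 (map_injective _ hinj (by rw [h, map_zero]))
    refine mul_ne_zero hG0 hEQ0 (hB _ ?_ fun u k hk hkB => ?_)
    · refine (totalDegree_mul _ _).trans (add_le_add (hG.totalDegree_le.trans hδ) ?_)
      exact (hE.map _).totalDegree_le
    · refine core hF he hE hG hineq hk fun i => ?_
      have h1 : (k i : ℝ) ≤ B := by exact_mod_cast hkB i
      rw [div_mul_eq_mul_div, one_mul, div_lt_one hB1]
      linarith

end Pool.Agent.Results.MP_44a246_nt.ExceptionalSetMustGrow
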