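import Mathlib
import Pool.Agent.X323.FT.Main

set_option autoImplicit false

/-!
# Vojta's truncated inequality over function fields: the degree of the exceptional set

Let `K` be a function field of one variable over an algebraically closed field `k` of characteristic
zero, `n ≥ 2`, and let `D` be a divisor of `ℙ^n` over `K` which contains the `n + 1` coordinate
hyperplanes and a hypersurface `F = 0` over `k` of any degree `e ≥ 1` which meets the three lines
joining three of the coordinate vertices transversally (this holds if the coordinate hyperplanes and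
`F = 0` have normal crossings); the rest `E = 0` of `D` is arbitrary. If the truncated inequality
`h_{K + D}(P) ≤ N_S^{(1)}(D, P) + ε h(P) + C` holds for the `K`-rational points `P` outside of `D` and
of a hypersurface `G = 0`, then `G E = 0` contains all cosets of one-dimensional subtori which are
tangent to `F = 0` and are given by exponents less than `1 / ε`, and
`deg G + deg E ≥ ∑ b φ(b)`, the sum over `2 ≤ b < 1 / ε`.
-/

namespace Pool.Agent.Results.MP_44a246_nt.FunctionFieldTangentTori

open FF MvPolynomial

section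
variable {k K : Type} [Field k] [Field K] [Algebra k K]

/-- The least order at the place `P` of the coordinates of a point of projective space. -/
noncomputable def minOrd {n : ℕ} (P : Place k K) (x : Fin (n + 1) → K) : ℤ :=
  ⨅ j : {j // x j ≠ 0}, P.ord (x j)

variable (k) in
/-- The height of the point with homogeneous coordinates `x`: minus the sum over the places of `K` of
the least order of the coordinates. -/
noncomputable def height {n : ℕ} (x : Fin (n + 1) → K) : ℤ := - ∑ᶠ P : Place k K, minOrd P x

/-- The set of the places outside `S` at which the point `x` meets the divisor `D`, the sum of the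
coordinate hyperplanes, of `F = 0` (of degree `e`) and of `E = 0` (of degree `e'`). -/
def meets {n : ℕ} (S : Set (Place k K)) (e : ℕ) (F : MvPolynomial (Fin (n + 1)) k) (e' : ℕ)
    (E : MvPolynomial (Fin (n + 1)) K) (x : Fin (n + 1) → K) : Set (Place k K) :=
  {P | P ∉ S ∧ ((∃ i, minOrd P x < P.ord (x i)) ∨ e * minOrd P x < P.ord (aeval x F) ∨
    e' * minOrd P x < P.ord (eval x E))}

/-- The truncated inequality `h_{K + D}(P) ≤ N_S^{(1)}(D, P) + ε h(P) + C` for all `K`-rational points
`P` off `D` and off `G = 0`; here `h_{K + D} = (e + e') h`. -/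
def Inequality {n : ℕ} (S : Set (Place k K)) (e : ℕ) (F : MvPolynomial (Fin (n + 1)) k) (e' : ℕ)
    (E : MvPolynomial (Fin (n + 1)) K) (ε C : ℝ) (G : MvPolynomial (Fin (n + 1)) K) : Prop :=
  ∀ x : Fin (n + 1) → K, (∀ i, x i ≠ 0) → aeval x F ≠ 0 → eval x E ≠ 0 → eval x G ≠ 0 →
    ((e : ℝ) + e') * (height k x : ℝ) ≤
      ((meets S e F e' E x).ncard : ℝ) + ε * (height k x : ℝ) + C

/-- `F = 0` does not contain the coordinate vertices `i` and `j`, and meets the line joining them
transversally: at the common points of the two the derivatives of `F` with respect to the variables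
`i` and `j` do not both vanish. -/
def Transversal {n : ℕ} (F : MvPolynomial (Fin (n + 1)) k) (i j : Fin (n + 1)) : Prop :=
  ∀ u : Fin (n + 1) → k, u ≠ 0 → (∀ l, l ≠ i → l ≠ j → u l = 0) → eval u F = 0 →
    u i ≠ 0 ∧ u j ≠ 0 ∧ (eval u (pderiv i F) ≠ 0 ∨ eval u (pderiv j F) ≠ 0)

/-- The curve `t ↦ (u_0 t ^ κ_0 : ⋯ : u_n t ^ κ_n)`, a coset of a one-dimensional subtorus, passes
for `t = 1` through the point `u` of `F = 0`, off the coordinate hyperplanes, is tangent to `F = 0`
there (the derivative of `F(u_i t ^ κ_i)` at `t = 1` is zero), and is not contained in `F = 0`; the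
least exponent is zero. -/
structure Tangent {n : ℕ} (F : MvPolynomial (Fin (n + 1)) k) (u : Fin (n + 1) → k)
    (κ : Fin (n + 1) → ℕ) : Prop where
  off : ∀ i, u i ≠ 0
  on : eval u F = 0
  tangent : ∑ i, (κ i : k) * u i * eval u (pderiv i F) = 0
  notIn : ∃ t : k, eval (fun i => u i * t ^ κ i) F ≠ 0
  zero : ∃ j, κ j = 0

end

open Pool.Agent.X323.FT Pool.Agent.X323.TV in
theorem cosets {k K : Type} [Field k] [IsAlgClosed k] [CharZero k] [Field K] [Algebra k K]
    [IsFF k K] {n e : ℕ} {F : MvPolynomial (Fin (n + 1)) k} (hF : F.IsHomogeneous e) (he : 1 ≤ e)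
    {e' : ℕ} {E : MvPolynomial (Fin (n + 1)) K} (hE : E.IsHomogeneous e')
    {S : Set (Place k K)} {ε C : ℝ} {G : MvPolynomial (Fin (n + 1)) K}
    (hineq : Inequality S e F e' E ε C G) {u : Fin (n + 1) → k} {κ : Fin (n + 1) → ℕ}
    (ht : Tangent F u κ) (hκ : ∀ i, ε * κ i < 1) :
    onCurve (fun i => algebraMap k K (u i)) κ (G * E) = 0 := by
  obtain ⟨h1, h2, h3, ⟨t, h4⟩, ⟨j0, h5⟩⟩ := ht
  refine core hF he hE (S := S) (ε := ε) (C := C) (fun x a1 a2 a3 a4 => hineq x a1 a2 a3 a4) h1 h2
    h3 ?_ h5 hκ
  intro h
  apply h4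
  rw [← eval_onCurve, h, Polynomial.eval_zero]

open Pool.Agent.X323.FT Pool.Agent.X323.TV Pool.Agent.W231.V in
theorem degree {k K : Type} [Field k] [IsAlgClosed k] [CharZero k] [Field K] [Algebra k K]
    [IsFF k K] {n e : ℕ} {F : MvPolynomial (Fin (n + 1)) k} (hF : F.IsHomogeneous e) (he : 1 ≤ e)
    {i₀ i₁ i₂ : Fin (n + 1)} (h01 : i₀ ≠ i₁) (h02 : i₀ ≠ i₂) (h12 : i₁ ≠ i₂)
    (hT01 : Transversal F i₀ i₁) (hT02 : Transversal F i₀ i₂) (hT12 : Transversal F i₁ i₂)
    {e' : ℕ} {E : MvPolynomial (Fin (n + 1)) K} (hE : E.IsHomogeneous e') (hE0 : E ≠ 0)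
    {S : Set (Place k K)} {ε C : ℝ} {G : MvPolynomial (Fin (n + 1)) K} {δ : ℕ}
    (hG : G.IsHomogeneous δ) (hG0 : G ≠ 0)
    (hineq : Inequality S e F e' E ε C G) (B : ℕ) (hB : ε * B < 1) :
    ∑ b ∈ Finset.Icc 2 B, b * b.totient ≤ δ + e' := by
  classical
  have : Infinite k := IsAlgClosed.instInfinite
  obtain ⟨R1, hR1, hR1p⟩ := generic hF he h01 h02 hT01
  obtain ⟨R2, hR2, hR2p⟩ := generic hF he h02 h01 hT02
  -- a generic point
  set W : MvPolynomial (Fin (n + 1)) K := G * E * map (algebraMap k K) R1 *
    map (algebraMap k K) R2 * ∏ j, X j with hW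
  have hinj : Function.Injective (map (σ := Fin (n + 1)) (algebraMap k K)) :=
    map_injective _ (algebraMap k K).injective
  have hW0 : W ≠ 0 := by
    refine mul_ne_zero (mul_ne_zero (mul_ne_zero (mul_ne_zero hG0 hE0) ?_) ?_) ?_
    · intro h
      exact hR1 (hinj (by rw [h, map_zero]))
    · intro h
      exact hR2 (hinj (by rw [h, map_zero]))
    · exact Finset.prod_ne_zero_iff.2 fun j _ => X_ne_zero j
  obtain ⟨p, hp⟩ : ∃ p : Fin (n + 1) → k, eval (fun j => algebraMap k K (p j)) W ≠ 0 := by
    by_contra hcon
    push Not at hcon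
    apply hW0
    refine funext_set (fun _ => Set.range (algebraMap k K))
      (fun _ => Set.infinite_range_of_injective (algebraMap k K).injective) ?_
    intro x hx
    have h1 : ∀ j, ∃ c, algebraMap k K c = x j := fun j => hx j (Set.mem_univ j)
    choose p hp using h1
    have h2 := hcon p
    rw [map_zero]
    rw [← h2]
    congr 1
    congr 1
    funext j
    exact (hp j).symm
  rw [hW, map_mul, map_mul, map_mul, map_mul] at hp
  have p5 := right_ne_zero_of_mul hp
  have p4 := right_ne_zero_of_mul (left_ne_zero_of_mul hp)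
  have p3 := right_ne_zero_of_mul (left_ne_zero_of_mul (left_ne_zero_of_mul hp))
  have p12 := left_ne_zero_of_mul (left_ne_zero_of_mul (left_ne_zero_of_mul hp))
  have hpR : ∀ R : MvPolynomial (Fin (n + 1)) k,
      eval (fun j => algebraMap k K (p j)) (map (algebraMap k K) R) =
        algebraMap k K (eval p R) := by
    intro R
    rw [eval_map]
    exact (eval₂_comp_left (algebraMap k K) (RingHom.id k) p R).symm
  have hp1 : eval p R1 ≠ 0 := by
    intro h
    rw [hpR, h, map_zero] at p3
    exact p3 rfl
  have hp2 : eval p R2 ≠ 0 := by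
    intro h
    rw [hpR, h, map_zero] at p4
    exact p4 rfl
  have hpj : ∀ j, p j ≠ 0 := by
    intro j hj
    apply p5
    rw [map_prod]
    refine Finset.prod_eq_zero (Finset.mem_univ j) ?_
    rw [eval_X, hj, map_zero]
  have hGE : eval (fun j => algebraMap k K (p j)) (G * E) ≠ 0 := by
    rw [map_mul]
    exact p12
  -- the restriction of G E to the plane
  set f : Polynomial (Polynomial K) := eval₂ ((Polynomial.C : Polynomial K →+* _).comp
    (Polynomial.C : K →+* _)) (fun j => if j = i₁ then Polynomial.X else
      if j = i₂ then Polynomial.C Polynomial.X else Polynomial.C (Polynomial.C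
        (algebraMap k K (p j)))) (G * E) with hf
  have hf0 : f ≠ 0 := by
    intro h0
    apply hGE
    have h1 : (f.eval (Polynomial.C (algebraMap k K (p i₁)))).eval (algebraMap k K (p i₂)) =
        eval (fun j => algebraMap k K (p j)) (G * E) := by
      have h2 : (f.eval (Polynomial.C (algebraMap k K (p i₁)))).eval (algebraMap k K (p i₂)) =
          ((Polynomial.evalRingHom (algebraMap k K (p i₂))).comp
            (Polynomial.evalRingHom (Polynomial.C (algebraMap k K (p i₁))))) f := rfl
      rw [h2, hf, MvPolynomial.hom_eval₂]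
      have h3 : ((Polynomial.evalRingHom (algebraMap k K (p i₂))).comp
            (Polynomial.evalRingHom (Polynomial.C (algebraMap k K (p i₁))))).comp
          ((Polynomial.C : Polynomial K →+* _).comp (Polynomial.C : K →+* _)) =
            RingHom.id K := by
        ext c
        simp
      rw [h3]
      change eval₂ (RingHom.id K) _ (G * E) = eval₂ (RingHom.id K) _ (G * E)
      congr 1
      funext j
      by_cases h4 : j = i₁
      · subst h4
        simp
      · by_cases h5 : j = i₂
        · subst h5
          simp [h4]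
        · simp [h4, h5]
    rw [← h1, h0, Polynomial.eval_zero, Polynomial.eval_zero]
  have hdeg : f.natDegree ≤ δ + e' := by
    have h1 := MvPolynomial.aeval_natDegree_le (m := δ + e') (n := 1)
      (MvPolynomial.map (Polynomial.C : K →+* Polynomial K) (G * E))
      (((hG.mul hE).map _).totalDegree_le)
      (fun j => if j = i₁ then Polynomial.X else
      if j = i₂ then Polynomial.C Polynomial.X else Polynomial.C (Polynomial.C
        (algebraMap k K (p j)))) (fun j => by
          by_cases h4 : j = i₁
          · rw [if_pos h4]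
            exact Polynomial.natDegree_X_le
          · rw [if_neg h4]
            by_cases h5 : j = i₂
            · rw [if_pos h5, Polynomial.natDegree_C]
              exact Nat.zero_le 1
            · rw [if_neg h5, Polynomial.natDegree_C]
              exact Nat.zero_le 1)
    rw [mul_one, MvPolynomial.aeval_def, MvPolynomial.eval₂_map] at h1
    exact h1
  -- the tangent cosets
  have hcos : ∀ a b : ℕ, 1 ≤ a → a < b → b ≤ B → ∃ x y : k, x ≠ 0 ∧ y ≠ 0 ∧
      crv (algebraMap k K x) (algebraMap k K y) a b f = 0 := by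
    intro a b ha hab hbB
    obtain ⟨x, y, hx, hy, h1, h2⟩ := exists_tangent hF he h02 h12 hT02 hT12 (by omega : 1 ≤ b) ha
      hab (fun j => if j = i₁ then 0 else if j = i₂ then 0 else p j) (by simp)
      (by simp) (hR1p p hp1) (by
        intro y hy
        have h := hR2p p hp2 y
        have hc : (fun j => if j = i₂ then (0 : k) else if j = i₁ then 0 else p j) =
            fun j => if j = i₁ then 0 else if j = i₂ then 0 else p j := by
          funext j
          by_cases h4 : j = i₁ <;> by_cases h5 : j = i₂ <;> simp [h4, h5]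
        have hc2 : (fun j => (if j = i₂ then (0 : k) else if j = i₁ then 0 else p j) +
            (Pi.single i₂ (1 : k) : Fin (n + 1) → k) j * y) =
            fun j => (if j = i₁ then (0 : k) else if j = i₂ then 0 else p j) +
            (Pi.single i₂ (1 : k) : Fin (n + 1) → k) j * y := by
          funext j
          rw [congrFun hc j]
        rw [hc2] at h
        exact h hy)
    refine ⟨x, y, hx, hy, ?_⟩
    set u : Fin (n + 1) → k := fun j => if j = i₁ then x else if j = i₂ then y else
      (if j = i₁ then 0 else if j = i₂ then 0 else p j) with hu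
    set κ : Fin (n + 1) → ℕ := fun j => if j = i₁ then a else if j = i₂ then b else 0 with hκ
    have hu1 : u i₁ = x := by simp [hu]
    have hu2 : u i₂ = y := by simp [hu, Ne.symm h12]
    have huj : ∀ j, j ≠ i₁ → j ≠ i₂ → u j = p j := fun j h3 h4 => by simp [hu, h3, h4]
    have hκ1 : κ i₁ = a := by simp [hκ]
    have hκ2 : κ i₂ = b := by simp [hκ, Ne.symm h12]
    have hκj : ∀ j, j ≠ i₁ → j ≠ i₂ → κ j = 0 := fun j h3 h4 => by simp [hκ, h3, h4]
    have hu0 : ∀ j, u j ≠ 0 := by
      intro j
      by_cases h3 : j = i₁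
      · rw [h3, hu1]; exact hx
      · by_cases h4 : j = i₂
        · rw [h4, hu2]; exact hy
        · rw [huj j h3 h4]; exact hpj j
    have htan : ∑ i, (κ i : k) * u i * eval u (pderiv i F) = 0 := by
      rw [← Finset.sum_subset (Finset.subset_univ ({i₁, i₂} : Finset (Fin (n + 1)))),
        Finset.sum_pair h12, hκ1, hκ2]
      · unfold xd at h2
        rw [map_mul, map_mul, eval_X, eval_X] at h2
        rw [← h2]
        ring
      · intro l _ hl
        rw [Finset.mem_insert, Finset.mem_singleton, not_or] at hl
        rw [hκj l hl.1 hl.2]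
        simp
    have hv := (vertex h02 hT02).1
    have hcoef : coeff (Finsupp.single i₂ e) F ≠ 0 := by
      intro hc
      apply hv
      rw [eval_eq']
      refine Finset.sum_eq_zero fun s hs => ?_
      have hsdeg : ∑ j, s j = e := by
        have := hF (mem_support_iff.1 hs)
        rw [← this, Finsupp.weight_apply, Finsupp.sum_fintype _ _ (by simp)]
        simp
      by_cases h3 : ∀ j, j ≠ i₂ → s j = 0
      · exfalso
        apply mem_support_iff.1 hs
        have h4 : s = Finsupp.single i₂ e := by
          ext j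
          by_cases h5 : j = i₂
          · subst h5
            rw [Finsupp.single_eq_same, ← hsdeg]
            refine (Finset.sum_eq_single _ (fun l _ hl => h3 l hl) ?_).symm
            intro h; exact absurd (Finset.mem_univ _) h
          · rw [h3 j h5, Finsupp.single_eq_of_ne h5]
        rw [h4]
        exact hc
      · push Not at h3
        obtain ⟨j, hj, hsj⟩ := h3
        rw [Finset.prod_eq_zero (Finset.mem_univ j), mul_zero]
        rw [Pi.single_eq_of_ne hj, zero_pow hsj]
    have hnot : onCurve u κ F ≠ 0 := by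
      refine onCurve_ne_zero u κ F hF i₂ hcoef (hu0 i₂) ?_
      intro j hj
      rw [hκ2]
      by_cases h3 : j = i₁
      · rw [h3, hκ1]; exact hab
      · rw [hκj j h3 hj]; omega
    have hB0 : ∀ i, ε * κ i < 1 := by
      intro i
      have h3 : κ i ≤ B := by
        by_cases h4 : i = i₁
        · rw [h4, hκ1]; omega
        · by_cases h5 : i = i₂
          · rw [h5, hκ2]; exact hbB
          · rw [hκj i h4 h5]; exact Nat.zero_le _
      rcases le_or_gt ε 0 with h4 | h4
      · have : ε * (κ i : ℝ) ≤ 0 := mul_nonpos_of_nonpos_of_nonneg h4 (Nat.cast_nonneg _)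
        linarith
      · have h5 : (κ i : ℝ) ≤ B := by exact_mod_cast h3
        nlinarith
    have hmain := core hF he hE (S := S) (ε := ε) (C := C)
      (fun x a1 a2 a3 a4 => hineq x a1 a2 a3 a4) hu0 h1 htan hnot
      (j0 := i₀) (hκj i₀ h01 h02) hB0
    have h3 : crv (algebraMap k K x) (algebraMap k K y) a b f =
        onCurve (fun i => algebraMap k K (u i)) κ (G * E) := by
      rw [hf, MvPolynomial.hom_eval₂]
      unfold onCurve
      rw [aeval_def]
      have h4 : (crv (algebraMap k K x) (algebraMap k K y) a b).comp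
          ((Polynomial.C : Polynomial K →+* _).comp (Polynomial.C : K →+* _)) =
            algebraMap K (Polynomial K) := by
        ext c
        simp [crv_C, sub_C]
      rw [h4]
      congr 1
      funext j
      by_cases h5 : j = i₁
      · subst h5
        simp only [if_true, crv_X, hu1, hκ1]
      · by_cases h6 : j = i₂
        · subst h6
          simp only [if_neg h5, if_true, crv_C, sub_X, hu2, hκ2]
        · simp only [if_neg h5, if_neg h6, crv_C, sub_C, huj j h5 h6, hκj j h5 h6, pow_zero,
            mul_one]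
    rw [h3]
    exact hmain
  -- the set of pairs
  set T : Finset (Σ _ : ℕ, ℕ) := (Finset.Icc 2 B).sigma
    (fun b => (Finset.range b).filter (fun a => b.Coprime a)) with hT
  have hmem : ∀ p ∈ T, 1 ≤ p.2 ∧ p.2 < p.1 ∧ p.1 ≤ B ∧ p.1.Coprime p.2 := by
    rintro ⟨b, a⟩ hp
    rw [hT, Finset.mem_sigma, Finset.mem_Icc, Finset.mem_filter, Finset.mem_range] at hp
    obtain ⟨⟨h1, h2⟩, h3, h4⟩ := hp
    refine ⟨?_, h3, h2, h4⟩
    simp only at h1 h4 ⊢
    by_contra h5
    have h6 : a = 0 := by omega
    rw [h6, Nat.coprime_zero_right] at h4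
    omega
  have hsum : ∑ p ∈ T, p.1 = ∑ b ∈ Finset.Icc 2 B, b * b.totient := by
    rw [hT, Finset.sum_sigma]
    refine Finset.sum_congr rfl fun b _ => ?_
    rw [Finset.sum_const, smul_eq_mul, mul_comm, Nat.totient_eq_card_coprime]
  have hex : ∀ p : (Σ _ : ℕ, ℕ), ∃ x y : k, p ∈ T → x ≠ 0 ∧ y ≠ 0 ∧
      crv (algebraMap k K x) (algebraMap k K y) p.2 p.1 f = 0 := by
    intro p
    by_cases hpT : p ∈ T
    · have h := hmem p hpT
      obtain ⟨x, y, h1⟩ := hcos p.2 p.1 h.1 h.2.1 h.2.2.1
      exact ⟨x, y, fun _ => h1⟩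
    · exact ⟨0, 0, fun h => absurd h hpT⟩
  choose x y hxy using hex
  have key := degree_bound T (fun p => p.2) (fun p => p.1)
    (fun p => algebraMap k K (x p)) (fun p => algebraMap k K (y p))
    (fun p hp => by rw [Ne, map_eq_zero]; exact (hxy p hp).1)
    (fun p hp => by rw [Ne, map_eq_zero]; exact (hxy p hp).2.1)
    (fun p hp => by have h := hmem p hp; omega)
    (fun p hp => ((hmem p hp).2.2.2).symm)
    (by
      rintro ⟨b, a⟩ hp ⟨b', a'⟩ hq hne heq
      apply hne
      have h1 := hmem _ hp
      have h2 := hmem _ hq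
      simp only at h1 h2 heq
      have h3 : b = b' := by
        apply Nat.dvd_antisymm
        · refine Nat.Coprime.dvd_of_dvd_mul_left h1.2.2.2 ?_
          rw [heq]
          exact dvd_mul_right _ _
        · refine Nat.Coprime.dvd_of_dvd_mul_left h2.2.2.2 ?_
          rw [mul_comm a' b, ← heq]
          exact dvd_mul_left _ _
      subst h3
      have h4 : a = a' := by
        rw [mul_comm a b] at heq
        exact Nat.eq_of_mul_eq_mul_left (by omega) heq
      rw [h4])
    f hf0 (fun p hp => (hxy p hp).2.2)
  rw [hsum] at key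
  exact key.trans hdeg

open Pool.Agent.X323.TV in
/-- Let `K` be a function field of one variable over an algebraically closed field `k` of
characteristic zero, `n ≥ 2`, `F` a form of degree `e ≥ 1` over `k` and `E` a nonzero form of degree
`e'` over `K` in `n + 1` variables, `D` the sum of the coordinate hyperplanes, of `F = 0` and of
`E = 0`, `S` a set of places of `K`, `ε` and `C` real numbers and `G` a nonzero form over `K`, of
degree `δ`. Assume the inequality `h_{K + D}(P) ≤ N_S^{(1)}(D, P) + ε h(P) + C` for all `K`-rational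
points `P` of `ℙ^n` off `D` and off `G = 0`.
(1) Every coset `t ↦ (u_0 t ^ κ_0 : ⋯ : u_n t ^ κ_n)` of a one-dimensional subtorus which is tangent
to `F = 0` at `u` and not contained in `F = 0`, with least exponent zero and all exponents less than
`1 / ε`, lies in `G E = 0`.
(2) If `F = 0` meets the three lines joining three of the coordinate vertices transversally, then
`δ + e' ≥ ∑_{2 ≤ b ≤ B} b φ(b)` for every `B` with `ε B < 1`. -/
theorem result (k K : Type) [Field k] [IsAlgClosed k] [CharZero k] [Field K] [Algebra k K]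
    [IsFF k K] (n e : ℕ) (he : 1 ≤ e) (F : MvPolynomial (Fin (n + 1)) k)
    (hF : F.IsHomogeneous e) (e' : ℕ) (E : MvPolynomial (Fin (n + 1)) K) (hE : E.IsHomogeneous e')
    (hE0 : E ≠ 0) (S : Set (Place k K)) (ε C : ℝ) (δ : ℕ) (G : MvPolynomial (Fin (n + 1)) K)
    (hG : G.IsHomogeneous δ) (hG0 : G ≠ 0) (hineq : Inequality S e F e' E ε C G) :
    (∀ (u : Fin (n + 1) → k) (κ : Fin (n + 1) → ℕ), Tangent F u κ → (∀ i, ε * κ i < 1) →
      ∀ t : K, eval (fun i => algebraMap k K (u i) * t ^ κ i) (G * E) = 0) ∧
    ∀ i₀ i₁ i₂ : Fin (n + 1), i₀ ≠ i₁ → i₀ ≠ i₂ → i₁ ≠ i₂ →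
      Transversal F i₀ i₁ → Transversal F i₀ i₂ → Transversal F i₁ i₂ →
      ∀ B : ℕ, ε * B < 1 → ∑ b ∈ Finset.Icc 2 B, b * b.totient ≤ δ + e' := by
  refine ⟨?_, ?_⟩
  · intro u κ ht hκ t
    have h := cosets hF he hE hineq ht hκ
    rw [← eval_onCurve, h, Polynomial.eval_zero]
  · intro i₀ i₁ i₂ h01 h02 h12 hT01 hT02 hT12 B hB
    exact degree hF he h01 h02 h12 hT01 hT02 hT12 hE hE0 hG hG0 hineq B hB

end Pool.Agent.Results.MP_44a246_nt.FunctionFieldTangentTori
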