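import Pool.Agent.X123.MT.Fermat
import Pool.Agent.Results.MP_44a246_nt.ManyTermAbc

/-!
# The truncated Vojta inequality for the points near almost every target

Let `K` be a number field and `D` the sum of `q ≥ n + 1` hyperplanes in general position of `ℙ^n`, or
`X` the hyperplane `x_1 + ⋯ + x_n = 0` and `D` the divisor `x_1 ⋯ x_n = 0`. We add targets `ξ = (ξ_i)`
in finitely many metric spaces with measures, for instance in completions of `K ^ n`. For almost all
targets the proximity of all the points `P ∈ X(K)` off `D` to `ξ` is bounded by the truncated counting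
function `N^{(1)}(D, P)` and the height, and the points near `ξ` satisfy the truncated Vojta inequality
without exceptions.
-/

set_option autoImplicit false

namespace Pool.Agent.Results.MP_44a246_nt.HyperplanesAndTargets

open NumberField IsDedekindDomain MeasureTheory LinearAlgebra.Projectivization

/-- The value of the linear form with coefficients `a` at `x`. -/
def lin {K : Type} [Field K] {n : ℕ} (a x : Fin (n + 1) → K) : K := ∑ j, a j * x j

open Classical in
/-- The truncated counting function `N_S^{(1)}(D, P)` of the divisor `D` of the hyperplanes `a_i = 0`,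
relative to `K`: the sum of `log N(v)` over the finite places `v ∉ S` at which the local height
`∑ log (|a_i|_v |x|_v / |a_i(x)|_v)` is positive. -/
noncomputable def truncated {K : Type} [Field K] [NumberField K] {n q : ℕ}
    (S : Finset (FinitePlace K)) (a : Fin q → Fin (n + 1) → K) (x : Fin (n + 1) → K) : ℝ :=
  ∑ᶠ v : FinitePlace K,
    if v ∉ S ∧ ∃ i, v (lin (a i) x) < (⨆ j, v (a i j)) * (⨆ j, v (x j)) then
      Real.log (Ideal.absNorm v.maximalIdeal.asIdeal : ℝ) else 0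

/-- The local height at `v` of the point with homogeneous coordinates `x`, relative to the divisor
`x_1 ⋯ x_n = 0`. -/
noncomputable def localHeight {K : Type} [Field K] [NumberField K] {n : ℕ}
    (v : HeightOneSpectrum (𝓞 K)) (x : Fin n → K) : ℝ :=
  ∑ i, Real.log ((⨆ j, FinitePlace.mk v (x j)) / FinitePlace.mk v (x i))

/-- The radical of `x`: the truncated counting function `N_S^{(1)}` relative to `x_1 ⋯ x_n = 0`, that
is the sum of `log N(v)` over the primes `v ∉ S` at which the local height is positive. -/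
noncomputable def rad {K : Type} [Field K] [NumberField K] {n : ℕ}
    (S : Set (HeightOneSpectrum (𝓞 K))) (x : Fin n → K) : ℝ :=
  ∑ᶠ v ∈ {v : HeightOneSpectrum (𝓞 K) | v ∉ S ∧ 0 < localHeight v x},
    Real.log (Ideal.absNorm v.asIdeal : ℝ)

/-- `1 - C(q - n, n + 1) / C(q, n + 1)` -/
noncomputable def rho (n q : ℕ) : ℝ := 1 - ((q - n).choose (n + 1) : ℝ) / (q.choose (n + 1) : ℝ)

/-- `1 - 1 / C(n, ⌊n / 2⌋)` -/
noncomputable def sig (n : ℕ) : ℝ := 1 - 1 / (n.choose (n / 2) : ℝ)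

/-- The threshold for hyperplanes in general position. -/
noncomputable def thr (n q : ℕ) : ℝ :=
  min (rho n q * (q - n - 1)) (((n : ℝ) + 1) * (q - n - 1) * (q + n) / (q * (q - 1)))

/-- closed balls of radius `r ≤ 1` have measure at most `C r ^ n` -/
def Balls {F : Type} [MetricSpace F] [MeasurableSpace F] (μ : Measure F) (n : ℝ) : Prop :=
  ∃ C : ℝ, ∀ (a : F) (r : ℝ), 0 < r → r ≤ 1 →
    μ (Metric.closedBall a r) ≤ ENNReal.ofReal (C * r ^ n)

/-- Let `F_i` be finitely many metric spaces with `σ`-finite Borel measures whose balls of radius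
`r ≤ 1` have measure at most `C r ^ (e_i)`, and `σ_i : V → F_i` arbitrary maps. For almost all `ξ` in
the product of the `F_i` the assertion `A` holds for the proximity function
`P ↦ ∑ e_i log⁺ (1 / |ξ_i - σ_i(P)|)` of the points `P ∈ V` to the targets. -/
def AlmostAll {V : Type} (A : (V → ℝ) → Prop) : Prop :=
  ∀ (ι : Type) [Fintype ι] (F : ι → Type) [∀ i, MetricSpace (F i)]
    [∀ i, MeasurableSpace (F i)] [∀ i, BorelSpace (F i)] (μ : ∀ i, Measure (F i))
    [∀ i, SigmaFinite (μ i)] (e : ι → ℝ) (σ : ∀ i, V → F i), (∀ i, 0 < e i) →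
    (∀ i, Balls (μ i) (e i)) →
      ∀ᵐ ξ ∂(Measure.pi μ), A (fun P => ∑ i, e i * max 0 (Real.log (1 / dist (ξ i) (σ i P))))

/-- The assertion on the proximities `Λ P` for hyperplanes in general position. -/
def Holds {K : Type} [Field K] [NumberField K] {n q : ℕ} (S : Finset (FinitePlace K))
    (a : Fin q → Fin (n + 1) → K) (Λ : ℙ K (Fin (n + 1) → K) → ℝ) : Prop :=
  ∀ ε : ℝ, 0 < ε → ∃ C : ℝ, ∀ P : ℙ K (Fin (n + 1) → K), (∀ i, lin (a i) P.rep ≠ 0) →
    Λ P ≤ rho n q * truncated S a P.rep + ε * P.logHeight + C ∧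
    Λ P ≤ ((n : ℝ) + 1) * (1 - n / (q - 1)) * P.logHeight +
      n * (n + 1) / (q * (q - 1)) * truncated S a P.rep + ε * P.logHeight + C ∧
    (thr n q * P.logHeight ≤ Λ P →
      ((q : ℝ) - n - 1) * P.logHeight ≤ truncated S a P.rep + ε * P.logHeight + C) ∧
    (((n : ℝ) + 1) * P.logHeight ≤ Λ P →
      q * P.logHeight ≤ truncated S a P.rep + ε * P.logHeight + C)

/-- The assertion on the proximities `Λ P` for the `n`-term abc inequality. -/
def HoldsAbc {K : Type} [Field K] [NumberField K] (S : Set (HeightOneSpectrum (𝓞 K))) (n : ℕ)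
    (Λ : ℙ K (Fin n → K) → ℝ) : Prop :=
  ∀ ε : ℝ, 0 < ε → ∃ C : ℝ, ∀ P : ℙ K (Fin n → K), ∑ i, P.rep i = 0 →
    (∀ I : Finset (Fin n), I.Nonempty → I ≠ Finset.univ → ∑ i ∈ I, P.rep i ≠ 0) →
      Λ P ≤ sig n * rad S P.rep + ε * P.logHeight + C ∧
      (sig n * P.logHeight ≤ Λ P → P.logHeight ≤ rad S P.rep + ε * P.logHeight + C)

/-- The affine coordinates `φ(x_1 / x_0), …, φ(x_n / x_0)` of a point of `ℙ^n(K)` (`0` if
`x_0 = 0`). -/
noncomputable def affine {K : Type} [Field K] {n : ℕ} (φ : K →+* ℝ)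
    (P : ℙ K (Fin (n + 1) → K)) : Fin n → ℝ := fun j => φ (P.rep j.succ / P.rep 0)

theorem rho_ge {n q : ℕ} (hn : 1 ≤ n) (hq : n + 1 ≤ q) : (n : ℝ) + 1 ≤ rho n q * q := by
  have hc0 : (0 : ℝ) < (q.choose (n + 1) : ℝ) := by exact_mod_cast Nat.choose_pos hq
  have h1 : (q - n).choose (n + 1) ≤ (q - 1).choose (n + 1) :=
    Nat.choose_le_choose _ (by omega)
  have h2 : (q - 1).choose (n + 1) * q = q.choose (n + 1) * (q - (n + 1)) := by
    have := Nat.choose_mul_succ_eq (q - 1) (n + 1)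
    rwa [Nat.sub_add_cancel (by omega : 1 ≤ q)] at this
  have h3 : ((q - 1).choose (n + 1) : ℝ) * q = q.choose (n + 1) * (q - (n + 1)) := by
    have h4 : (((q - 1).choose (n + 1) * q : ℕ) : ℝ) = ((q.choose (n + 1) * (q - (n + 1)) : ℕ) : ℝ) := by
      exact_mod_cast h2
    push_cast [Nat.cast_sub hq] at h4
    exact h4
  have h5 : ((q - n).choose (n + 1) : ℝ) ≤ (q - 1).choose (n + 1) := by exact_mod_cast h1
  have hq0 : (0 : ℝ) ≤ q := Nat.cast_nonneg q
  unfold rho
  rw [sub_mul, one_mul, le_sub_iff_add_le, ← le_sub_iff_add_le', div_mul_eq_mul_div,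
    div_le_iff₀ hc0]
  have h6 := mul_le_mul_of_nonneg_right h5 hq0
  rw [h3] at h6
  linarith

theorem thr_lt {n q : ℕ} (hn : 1 ≤ n) (hq : n + 1 ≤ q) : thr n q < n + 1 := by
  have hnR : (1 : ℝ) ≤ n := by exact_mod_cast hn
  have hqR : (n : ℝ) + 1 ≤ q := by exact_mod_cast hq
  have hq0 : (0 : ℝ) < q := by linarith
  have hq1 : (0 : ℝ) < (q : ℝ) - 1 := by linarith
  refine (min_le_right _ _).trans_lt ?_
  rw [div_lt_iff₀ (by positivity)]
  have h1 : ((n : ℝ) + 1) * (q - n - 1) * (q + n) =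
      (n + 1) * (q * (q - 1)) - (n + 1) * (n * (n + 1)) := by ring
  rw [h1]
  have : 0 < ((n : ℝ) + 1) * (n * (n + 1)) := by positivity
  linarith

theorem sig_pos {n : ℕ} (hn : 3 ≤ n) : 0 < sig n := by
  have h1 : n ≤ n.choose (n / 2) := by
    calc n = n.choose 1 := (Nat.choose_one_right n).symm
      _ ≤ n.choose (n / 2) := Nat.choose_le_middle 1 n
  have h2 : (3 : ℝ) ≤ (n.choose (n / 2) : ℝ) := by
    exact_mod_cast le_trans hn h1
  unfold sig
  have h3 : 1 / (n.choose (n / 2) : ℝ) ≤ 1 / 3 := by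
    apply div_le_div_of_nonneg_left one_pos.le (by norm_num) h2
  linarith

theorem countable_proj (K : Type) [Field K] [Countable K] (m : ℕ) :
    Countable (ℙ K (Fin m → K)) := by
  have h : Function.Surjective (fun v : {v : Fin m → K // v ≠ 0} =>
      (Projectivization.mk K v.1 v.2 : ℙ K (Fin m → K))) := by
    intro P
    exact ⟨⟨P.rep, P.rep_nonzero⟩, P.mk_rep⟩
  exact h.countable

theorem logHeight_rep {K : Type} [Field K] [NumberField K] {m : ℕ} (P : ℙ K (Fin m → K)) :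
    P.logHeight = Height.logHeight P.rep := by
  conv_lhs => rw [← P.mk_rep]
  rfl

theorem logHeight_nonneg {K : Type} [Field K] [NumberField K] {m : ℕ} (P : ℙ K (Fin m → K)) :
    0 ≤ P.logHeight := by
  rw [logHeight_rep]
  exact Height.logHeight_nonneg _

theorem truncated_nonneg {K : Type} [Field K] [NumberField K] {n q : ℕ}
    (S : Finset (FinitePlace K)) (a : Fin q → Fin (n + 1) → K) (x : Fin (n + 1) → K) :
    0 ≤ truncated S a x := by
  unfold truncated
  refine finsum_nonneg fun v => ?_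
  split_ifs
  · apply Real.log_nonneg
    have h1 : 0 < Ideal.absNorm v.maximalIdeal.asIdeal := Nat.pos_of_ne_zero fun h => by
      rw [Ideal.absNorm_eq_zero_iff] at h
      exact v.maximalIdeal.ne_bot h
    exact_mod_cast h1
  · exact le_rfl

theorem rad_nonneg {K : Type} [Field K] [NumberField K] {n : ℕ}
    (S : Set (HeightOneSpectrum (𝓞 K))) (x : Fin n → K) : 0 ≤ rad S x := by
  unfold rad
  refine finsum_nonneg fun v => finsum_nonneg fun _ => Real.log_nonneg ?_
  have h1 : 0 < Ideal.absNorm v.asIdeal := Nat.pos_of_ne_zero fun h => by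
    rw [Ideal.absNorm_eq_zero_iff] at h
    exact v.ne_bot h
  exact_mod_cast h1

open Pool.Agent.X123.MT

/-- the grid argument for a set of points with bounds for all `θ` -/
theorem grid {V Y : Type*} [MeasurableSpace Y] {μ : Measure Y} {L : V → Y → ℝ}
    (hL : Generic μ L) (A : Set V) (N h : V → ℝ) (hh : ∀ x, 0 ≤ h x) (hN : ∀ x, 0 ≤ N x)
    {q : ℝ} (hq : 0 ≤ q) {E : ℝ} (hE : 0 ≤ E) (hA : Cnt A h E) (g : ℝ → ℝ)
    (hg : ∀ θ : ℝ, 0 ≤ θ → Cnt {x | x ∈ A ∧ N x < θ * h x} h (g θ)) :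
    ∀ᵐ y ∂μ, ∀ s e : ℝ, 0 < s → 0 < e → E ≤ e →
      (∀ θ : ℝ, 0 ≤ θ → θ ≤ q → max 0 (g θ) ≤ e - s * (q - θ)) →
      ∀ ε : ℝ, 0 < ε → ∃ C : ℝ, ∀ x ∈ A, L x y ≤ s * N x + (e - s * q + ε) * h x + C := by
  have hjJ : ∀ j J : ℕ, j ≤ J → 0 ≤ q - q * j / J ∧ q - q * j / J ≤ q := by
    intro j J hj
    have h0 : (j : ℝ) / J ≤ 1 := by
      rcases Nat.eq_zero_or_pos J with h | h
      · subst h
        simp
      · rw [div_le_one (by exact_mod_cast h)]
        exact_mod_cast hj
    have h1 : 0 ≤ (j : ℝ) / J := by positivity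
    have h2 : q * j / J = q * (j / J) := by ring
    rw [h2]
    constructor
    · nlinarith
    · nlinarith
  have H0 : ∀ᵐ y ∂μ, ∀ ε : ℝ, 0 < ε → ∃ C : ℝ, ∀ x ∈ A, L x y ≤ (E + ε) * h x + C :=
    hL _ _ _ (fun x _ => hh x) hE hA
  have H1 : ∀ᵐ y ∂μ, ∀ J j : ℕ, j ≤ J → ∀ ε : ℝ, 0 < ε → ∃ C : ℝ,
      ∀ x ∈ {x | x ∈ A ∧ N x < (q - q * j / J) * h x},
      L x y ≤ (max 0 (g (q - q * j / J)) + ε) * h x + C := by
    rw [ae_all_iff]
    intro J
    rw [ae_all_iff]
    intro j
    by_cases hj : j ≤ J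
    · have h1 := hL _ _ (max 0 (g (q - q * j / J))) (fun x _ => hh x) (le_max_left _ _)
        ((hg _ (hjJ j J hj).1).mono subset_rfl (le_max_right _ _))
      filter_upwards [h1] with y hy _ using hy
    · exact Filter.Eventually.of_forall fun y h => absurd h hj
  filter_upwards [H0, H1] with y h0 h1 s e hs he hEe hline
  refine line_gen (fun x => x ∈ A) N h (fun x => L x y) hh hq he hs (fun x _ => hN x)
    (fun ε hε => ?_) (fun J j hj ε hε => ?_)
  · obtain ⟨C, hC⟩ := h0 ε hε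
    refine ⟨C, fun x hx => (hC x hx).trans ?_⟩
    have := mul_le_mul_of_nonneg_right (add_le_add_left hEe ε) (hh x)
    linarith
  · obtain ⟨C, hC⟩ := h1 J j hj ε hε
    refine ⟨C, fun x hx hx2 => (hC x ⟨hx, hx2⟩).trans ?_⟩
    have h2 := hline _ (hjJ j J hj).1 (hjJ j J hj).2
    have h3 : q - (q - q * j / J) = q * j / J := by ring
    rw [h3] at h2
    have := mul_le_mul_of_nonneg_right (add_le_add_left h2 ε) (hh x)
    linarith

open Pool.Agent.Results.MP_9ec3f0_nt.HyperplaneExceptions (expo) in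
open scoped Classical in
theorem cnt_all {K : Type} [Field K] [NumberField K] (n q : ℕ) (hn : 1 ≤ n) (hq : n + 1 ≤ q)
    (a : Fin q → Fin (n + 1) → K)
    (ha : ∀ I : Finset (Fin q), I.card = n + 1 → LinearIndependent K (fun i : I => a i)) :
    Cnt {P : ℙ K (Fin (n + 1) → K) | ∀ i, lin (a i) P.rep ≠ 0} (fun P => P.logHeight)
      ((n : ℝ) + 1) := by
  have hq0 : (0 : ℝ) ≤ q := Nat.cast_nonneg q
  intro δ hδ
  obtain ⟨M, hM⟩ := Pool.Agent.TH905.VF.gen_main K n q hn hq a ha ∅ q (-1) δ hq0 hδ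
  refine ⟨max M 0, fun t ht => ?_⟩
  obtain ⟨h1, h2⟩ := hM (Real.exp t) (Real.one_le_exp ht)
  have hsub : {P | P ∈ {P : ℙ K (Fin (n + 1) → K) | ∀ i, lin (a i) P.rep ≠ 0} ∧
      P.logHeight ≤ t} ⊆ Pool.Agent.TH905.VF.E1 ∅ a q (-1) (Real.exp t) := by
    rintro P ⟨hP, hPt⟩
    refine ⟨hP, ?_, 1, K, inferInstance, inferInstance, inferInstance,
      fun i => lin (a i) P.rep, 1, one_ne_zero, one_ne_zero, fun i => ?_, ?_⟩
    · rw [Projectivization.logHeight_eq_log_mulHeight] at hPt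
      exact (Real.log_le_iff_le_exp P.mulHeight_pos).1 hPt
    · simp only [pow_one, one_mul, Algebra.algebraMap_self, RingHom.id_apply]
      rfl
    · have h3 := Pool.Agent.TH905.VF.prox_nonneg (k := K) (L := K) ∅
        (fun i => lin (a i) P.rep) hP
      have h4 : Pool.Agent.TH905.VF.ld K K = 0 := by
        unfold Pool.Agent.TH905.VF.ld
        rw [Module.finrank_self]
        simp
      rw [h4]
      push_cast
      linarith
  refine ⟨h1.subset hsub, ?_⟩
  refine (le_trans (by exact_mod_cast Set.ncard_le_ncard hsub h1) h2).trans ?_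
  have h5 : expo n q q ≤ (n : ℝ) + 1 := by
    refine (min_le_right _ _).trans ?_
    rw [sub_self, mul_zero, zero_div, sub_zero, mul_one]
  rw [← Real.exp_mul, mul_comm t]
  calc M * Real.exp ((expo n q q + δ) * t) ≤ max M 0 * Real.exp ((expo n q q + δ) * t) :=
        mul_le_mul_of_nonneg_right (le_max_left _ _) (Real.exp_pos _).le
    _ ≤ max M 0 * Real.exp (((n : ℝ) + 1 + δ) * t) := by
        apply mul_le_mul_of_nonneg_left _ (le_max_right _ _)
        apply Real.exp_le_exp.2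
        nlinarith

open Pool.Agent.Results.MP_9ec3f0_nt.HyperplaneExceptions (expo) in
theorem cnt_small {K : Type} [Field K] [NumberField K] (S : Finset (FinitePlace K)) (n q : ℕ)
    (hn : 1 ≤ n) (hq : n + 1 ≤ q) (a : Fin q → Fin (n + 1) → K)
    (ha : ∀ I : Finset (Fin q), I.card = n + 1 → LinearIndependent K (fun i : I => a i))
    {θ : ℝ} (hθ : 0 ≤ θ) :
    Cnt {P : ℙ K (Fin (n + 1) → K) | (∀ i, lin (a i) P.rep ≠ 0) ∧
      truncated S a P.rep < θ * P.logHeight} (fun P => P.logHeight) (expo n q θ) := by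
  intro δ hδ
  obtain ⟨-, M, hM⟩ := Pool.Agent.Results.MP_9ec3f0_nt.HyperplaneExceptions.result K n q hn hq a ha
    S θ 0 δ hθ hδ
  refine ⟨M, fun t ht => ?_⟩
  obtain ⟨h1, h2⟩ := hM (Real.exp t) (Real.one_le_exp ht)
  have hsub : {P | P ∈ {P : ℙ K (Fin (n + 1) → K) | (∀ i, lin (a i) P.rep ≠ 0) ∧
      truncated S a P.rep < θ * P.logHeight} ∧ P.logHeight ≤ t} ⊆
      Pool.Agent.Results.MP_9ec3f0_nt.HyperplaneExceptions.Exc S a θ 0 (Real.exp t) := by
    rintro P ⟨⟨hP, hP2⟩, hPt⟩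
    refine ⟨hP, ?_, ?_⟩
    · rw [Projectivization.logHeight_eq_log_mulHeight] at hPt
      exact (Real.log_le_iff_le_exp P.mulHeight_pos).1 hPt
    · rw [← Projectivization.logHeight_eq_log_mulHeight, add_zero]
      exact hP2.le
  refine ⟨h1.subset hsub, ?_⟩
  refine (le_trans (by exact_mod_cast Set.ncard_le_ncard hsub h1) h2).trans (le_of_eq ?_)
  rw [← Real.exp_mul, mul_comm t]

open Pool.Agent.Results.MP_9ec3f0_nt.HyperplaneExceptions (expo) in
theorem holds_of_generic {K : Type} [Field K] [NumberField K] (S : Finset (FinitePlace K))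
    (n q : ℕ) (hn : 1 ≤ n) (hq : n + 1 ≤ q) (a : Fin q → Fin (n + 1) → K)
    (ha : ∀ I : Finset (Fin q), I.card = n + 1 → LinearIndependent K (fun i : I => a i))
    {Y : Type*} [MeasurableSpace Y] {μ : Measure Y} {L : ℙ K (Fin (n + 1) → K) → Y → ℝ}
    (hL : Generic μ L) : ∀ᵐ y ∂μ, Holds S a (fun P => L P y) := by
  have hnR : (1 : ℝ) ≤ n := by exact_mod_cast hn
  have hqR : (n : ℝ) + 1 ≤ q := by exact_mod_cast hq
  have hq0 : (0 : ℝ) < q := by linarith
  have hq1 : (0 : ℝ) < (q : ℝ) - 1 := by linarith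
  have hρ := rho_ge hn hq
  have hρ0 : 0 < rho n q := by
    by_contra h
    push Not at h
    have := mul_nonpos_of_nonpos_of_nonneg h hq0.le
    linarith
  obtain ⟨s, hs⟩ : ∃ s : ℝ, s = (n : ℝ) * (n + 1) / (q * (q - 1)) := ⟨_, rfl⟩
  have hs0 : 0 < s := by rw [hs]; positivity
  have hsq : s * q = n * (n + 1) / (q - 1) := by rw [hs]; field_simp
  have hsq1 : s * q ≤ n + 1 := by
    rw [hsq, div_le_iff₀ hq1]
    nlinarith
  have hmain := grid hL {P : ℙ K (Fin (n + 1) → K) | ∀ i, lin (a i) P.rep ≠ 0}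
    (fun P => truncated S a P.rep) (fun P => P.logHeight) (fun P => logHeight_nonneg P)
    (fun P => truncated_nonneg S a _) hq0.le (by positivity : (0 : ℝ) ≤ (n : ℝ) + 1)
    (cnt_all n q hn hq a ha) (expo n q) (fun θ hθ => cnt_small S n q hn hq a ha hθ)
  filter_upwards [hmain] with y hy ε hε
  obtain ⟨μ0, hμ0⟩ : ∃ μ0 : ℝ, μ0 = min 1 (min (rho n q) s) := ⟨_, rfl⟩
  have hμpos : 0 < μ0 := by
    rw [hμ0]
    exact lt_min one_pos (lt_min hρ0 hs0)
  have hμ1 : μ0 ≤ 1 := by rw [hμ0]; exact min_le_left _ _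
  have hμρ : μ0 ≤ rho n q := by rw [hμ0]; exact (min_le_right _ _).trans (min_le_left _ _)
  have hμs : μ0 ≤ s := by rw [hμ0]; exact (min_le_right _ _).trans (min_le_right _ _)
  obtain ⟨Ca, hCa⟩ := hy (rho n q) (rho n q * q) hρ0 (by positivity) hρ (by
    intro θ hθ0 hθq
    refine max_le ?_ ((min_le_left _ _).trans (le_of_eq ?_))
    · have : 0 ≤ rho n q * θ := by positivity
      linarith
    · unfold rho
      ring) (ε * μ0) (by positivity)
  obtain ⟨Cb, hCb⟩ := hy s ((n : ℝ) + 1) hs0 (by positivity) le_rfl (by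
    intro θ hθ0 hθq
    refine max_le ?_ ((min_le_right _ _).trans (le_of_eq ?_))
    · have : 0 ≤ s * θ := by positivity
      linarith
    · rw [hs]
      field_simp) (ε * μ0) (by positivity)
  obtain ⟨E, hE⟩ : ∃ E : ℝ, E = (n : ℝ) + 1 - s * q := ⟨_, rfl⟩
  have hE0 : 0 ≤ E := by rw [hE]; linarith
  obtain ⟨C, hC⟩ : ∃ C : ℝ, C = |Ca| + |Cb| := ⟨_, rfl⟩
  have hC0 : 0 ≤ C := by rw [hC]; positivity
  refine ⟨C / μ0, fun P hP => ?_⟩
  obtain ⟨N, hN⟩ : ∃ N : ℝ, N = truncated S a P.rep := ⟨_, rfl⟩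
  obtain ⟨H, hH⟩ : ∃ H : ℝ, H = P.logHeight := ⟨_, rfl⟩
  have hH0 : 0 ≤ H := by rw [hH]; exact logHeight_nonneg P
  have hCC : C ≤ C / μ0 := by
    rw [le_div_iff₀ hμpos]
    nlinarith
  have hab1 := hCa P hP
  have hab2 := hCb P hP
  rw [← hN, ← hH] at hab1 hab2
  have I1 : L P y ≤ rho n q * N + ε * μ0 * H + C := by
    rw [sub_self, zero_add] at hab1
    have h3 := le_abs_self Ca
    have h4 := abs_nonneg Cb
    rw [hC]
    linarith
  have I2 : L P y ≤ s * N + E * H + ε * μ0 * H + C := by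
    rw [← hE] at hab2
    have h3 := le_abs_self Cb
    have h4 := abs_nonneg Ca
    rw [hC]
    linarith
  have hεμ : ε * μ0 ≤ ε := by nlinarith
  have hεH : ε * μ0 * H ≤ ε * H := mul_le_mul_of_nonneg_right hεμ hH0
  have hEe : E = ((n : ℝ) + 1) * (1 - n / (q - 1)) := by
    rw [hE, hsq]
    field_simp
  have hCμ : μ0 * (C / μ0) = C := by field_simp
  rw [← hN, ← hH]
  refine ⟨by linarith, ?_, fun h => ?_, fun h => ?_⟩
  · rw [← hEe, ← hs]
    linarith
  · by_contra hlt
    push Not at hlt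
    have hgap : 0 < ((q : ℝ) - n - 1) * H - N - ε * H - C / μ0 := by linarith
    rcases le_total (rho n q * ((q : ℝ) - n - 1))
      (((n : ℝ) + 1) * (q - n - 1) * (q + n) / (q * (q - 1))) with hle | hle
    · have h2 : thr n q = rho n q * ((q : ℝ) - n - 1) := min_eq_left hle
      rw [h2] at h
      have h3 := mul_pos hρ0 hgap
      have h4 : μ0 * (ε * H + C / μ0) ≤ rho n q * (ε * H + C / μ0) :=
        mul_le_mul_of_nonneg_right hμρ (by positivity)
      have h5 : μ0 * (ε * H + C / μ0) = ε * μ0 * H + C := by rw [mul_add, hCμ]; ring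
      nlinarith
    · have h2 : thr n q = ((n : ℝ) + 1) * (q - n - 1) * (q + n) / (q * (q - 1)) :=
        min_eq_right hle
      rw [h2] at h
      have h3 := mul_pos hs0 hgap
      have h4 : μ0 * (ε * H + C / μ0) ≤ s * (ε * H + C / μ0) :=
        mul_le_mul_of_nonneg_right hμs (by positivity)
      have h5 : μ0 * (ε * H + C / μ0) = ε * μ0 * H + C := by rw [mul_add, hCμ]; ring
      have h6 : ((n : ℝ) + 1) * (q - n - 1) * (q + n) / (q * (q - 1)) * H =
          s * (((q : ℝ) - n - 1) * H) + E * H := by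
        rw [hE, hs]
        field_simp
        ring
      rw [h6] at h
      nlinarith
  · by_contra hlt
    push Not at hlt
    have hgap : 0 < (q : ℝ) * H - N - ε * H - C / μ0 := by linarith
    have h3 := mul_pos hs0 hgap
    have h4 : μ0 * (ε * H + C / μ0) ≤ s * (ε * H + C / μ0) :=
      mul_le_mul_of_nonneg_right hμs (by positivity)
    have h5 : μ0 * (ε * H + C / μ0) = ε * μ0 * H + C := by rw [mul_add, hCμ]; ring
    have h6 : ((n : ℝ) + 1) * H = s * (q * H) + E * H := by rw [hE]; ring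
    rw [h6] at h
    nlinarith

theorem rep_ne {K : Type} [Field K] {n : ℕ} (hn : 3 ≤ n) (P : ℙ K (Fin n → K))
    (h : ∀ I : Finset (Fin n), I.Nonempty → I ≠ Finset.univ → ∑ i ∈ I, P.rep i ≠ 0) (i : Fin n) :
    P.rep i ≠ 0 := by
  have h := h {i} (Finset.singleton_nonempty i) ?_
  · simpa using h
  · intro h
    have h1 := congrArg Finset.card h
    rw [Finset.card_singleton, Finset.card_univ, Fintype.card_fin] at h1
    omega

theorem rad_le {K : Type} [Field K] [NumberField K] (S : Set (HeightOneSpectrum (𝓞 K))) {n : ℕ}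
    (hn : 3 ≤ n) (P : ℙ K (Fin n → K)) (hne : ∀ i, P.rep i ≠ 0) :
    rad S P.rep ≤ n * P.logHeight := by
  classical
  have hpos : ∀ (v : HeightOneSpectrum (𝓞 K)) (i : Fin n),
      0 < FinitePlace.mk v (P.rep i) := fun v i => FinitePlace.pos_iff.mpr (hne i)
  have hset : {v : HeightOneSpectrum (𝓞 K) | v ∉ S ∧ 0 < localHeight v P.rep} =
      {v : HeightOneSpectrum (𝓞 K) | v ∉ S ∧
        ∃ i j, FinitePlace.mk v (P.rep i) ≠ FinitePlace.mk v (P.rep j)} := by
    obtain ⟨m, rfl⟩ : ∃ m, n = m + 1 := ⟨n - 1, by omega⟩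
    ext v
    simp only [Set.mem_ofPred_eq]
    refine and_congr_right fun _ => ?_
    exact Pool.Agent.H951R3.V.sum_log_pos_iff _ (hpos v)
  have hfin : {v : HeightOneSpectrum (𝓞 K) | v ∉ S ∧ 0 < localHeight v P.rep}.Finite := by
    rw [hset]
    obtain ⟨m, rfl⟩ : ∃ m, n = m + 1 := ⟨n - 1, by omega⟩
    exact (Pool.Agent.H951R3.V.neq_finite P.rep hne).subset fun v hv => hv.2
  unfold rad
  rw [finsum_mem_eq_finite_toFinset_sum _ hfin]
  have h3 := Pool.Agent.TH905.VF.key' (k := K) (L := K) (by omega : 0 < n) 1 one_ne_zero P.rep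
    P.rep hne 1 one_ne_zero (fun i => by simp) ∅ hfin.toFinset (by
      intro v hv
      rw [Set.Finite.mem_toFinset, hset] at hv
      obtain ⟨-, i, j, hij⟩ := hv
      refine ⟨by simp, ?_⟩
      rcases lt_or_gt_of_ne hij with h | h
      · exact ⟨i, j, h⟩
      · exact ⟨j, i, h⟩)
  have h4 : Pool.Agent.TH905.VF.ld K K = 0 := by
    unfold Pool.Agent.TH905.VF.ld
    rw [Module.finrank_self]
    simp
  have h5 := Pool.Agent.TH905.VF.prox_nonneg (k := K) (L := K) ∅ P.rep hne
  have h6 : Pool.Agent.TH905.VF.ht K P.rep = P.logHeight := by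
    unfold Pool.Agent.TH905.VF.ht
    rw [Module.finrank_self, logHeight_rep]
    simp
  rw [h4, h6, zero_add] at h3
  linarith

theorem cnt_abc {K : Type} [Field K] [NumberField K] (S : Set (HeightOneSpectrum (𝓞 K)))
    (hS : S.Finite) (n : ℕ) (hn : 3 ≤ n) {θ : ℝ} (hθ : 0 ≤ θ) :
    Cnt {P : ℙ K (Fin n → K) | (∑ i, P.rep i = 0 ∧
      (∀ I : Finset (Fin n), I.Nonempty → I ≠ Finset.univ → ∑ i ∈ I, P.rep i ≠ 0)) ∧
      rad S P.rep ≤ θ * P.logHeight} (fun P => P.logHeight) (θ * sig n) := by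
  intro δ hδ
  obtain ⟨M, hM⟩ := Pool.Agent.Results.MP_44a246_nt.ManyTermAbc.result K S hS n hn θ 0 δ hθ hδ
  refine ⟨M, fun t ht => ?_⟩
  obtain ⟨h1, h2⟩ := hM (Real.exp t) (Real.one_le_exp ht)
  refine ⟨h1.subset ?_, le_trans (Nat.cast_le.2 (Set.ncard_le_ncard ?_ h1)) (h2.trans (le_of_eq ?_))⟩
  · rintro P ⟨⟨⟨hP1, hP2⟩, hP3⟩, hPt⟩
    refine ⟨hP1, hP2, ?_, ?_⟩
    · change P.logHeight ≤ t at hPt
      rw [Projectivization.logHeight_eq_log_mulHeight] at hPt
      exact (Real.log_le_iff_le_exp P.mulHeight_pos).1 hPt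
    · rw [add_zero]
      exact hP3
  · rintro P ⟨⟨⟨hP1, hP2⟩, hP3⟩, hPt⟩
    refine ⟨hP1, hP2, ?_, ?_⟩
    · change P.logHeight ≤ t at hPt
      rw [Projectivization.logHeight_eq_log_mulHeight] at hPt
      exact (Real.log_le_iff_le_exp P.mulHeight_pos).1 hPt
    · rw [add_zero]
      exact hP3
  · rw [← Real.exp_mul, mul_comm t]
    rfl

theorem abc_of_generic {K : Type} [Field K] [NumberField K] (S : Set (HeightOneSpectrum (𝓞 K)))
    (hS : S.Finite) (n : ℕ) (hn : 3 ≤ n)
    {Y : Type*} [MeasurableSpace Y] {μ : Measure Y} {L : ℙ K (Fin n → K) → Y → ℝ}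
    (hL : Generic μ L) : ∀ᵐ y ∂μ, HoldsAbc S n (fun P => L P y) := by
  have hs0 := sig_pos hn
  have hn0 : (0 : ℝ) < n := by exact_mod_cast (show 0 < n by omega)
  have hcntA : Cnt {P : ℙ K (Fin n → K) | ∑ i, P.rep i = 0 ∧
      (∀ I : Finset (Fin n), I.Nonempty → I ≠ Finset.univ → ∑ i ∈ I, P.rep i ≠ 0)}
      (fun P => P.logHeight) (n * sig n) :=
    (cnt_abc S hS n hn hn0.le).mono (fun P hP => ⟨hP, rad_le S hn P (rep_ne hn P hP.2)⟩) le_rfl
  have hmain := grid hL _ (fun P => rad S P.rep) (fun P => P.logHeight)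
    (fun P => logHeight_nonneg P) (fun P => rad_nonneg S _) hn0.le
    (by positivity : (0 : ℝ) ≤ n * sig n) hcntA (fun θ => θ * sig n)
    (fun θ hθ => (cnt_abc S hS n hn hθ).mono (fun P hP => ⟨hP.1, hP.2.le⟩) le_rfl)
  filter_upwards [hmain] with y hy ε hε
  obtain ⟨C, hC⟩ := hy (sig n) (sig n * n) hs0 (by positivity) (le_of_eq (by ring)) (by
    intro θ hθ0 hθn
    refine max_le ?_ (le_of_eq ?_)
    · have : 0 ≤ sig n * θ := by positivity
      linarith
    · ring) (ε * min 1 (sig n)) (by positivity)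
  refine ⟨max C (C / sig n), fun P hP1 hP2 => ?_⟩
  have h1 := hC P ⟨hP1, hP2⟩
  rw [sub_self, zero_add] at h1
  have hH0 := logHeight_nonneg P
  have h2 : ε * min 1 (sig n) * P.logHeight ≤ ε * P.logHeight := by
    apply mul_le_mul_of_nonneg_right _ hH0
    calc ε * min 1 (sig n) ≤ ε * 1 := mul_le_mul_of_nonneg_left (min_le_left _ _) hε.le
      _ = ε := mul_one ε
  have h3 : ε * min 1 (sig n) * P.logHeight ≤ sig n * (ε * P.logHeight) := by
    calc ε * min 1 (sig n) * P.logHeight ≤ ε * sig n * P.logHeight := by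
          apply mul_le_mul_of_nonneg_right _ hH0
          exact mul_le_mul_of_nonneg_left (min_le_right _ _) hε.le
      _ = _ := by ring
  refine ⟨?_, fun h => ?_⟩
  · have := le_max_left C (C / sig n)
    linarith
  · have h4 : C / sig n ≤ max C (C / sig n) := le_max_right _ _
    have h5 : sig n * (C / sig n) = C := by field_simp
    have h6 : sig n * P.logHeight ≤ sig n * (rad S P.rep + ε * P.logHeight + C / sig n) := by
      rw [mul_add, mul_add, h5]
      linarith
    have h7 := le_of_mul_le_mul_left h6 hs0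
    linarith

theorem balls_pi (n : ℕ) : Balls (volume : Measure (Fin n → ℝ)) n := by
  refine ⟨2 ^ n, fun a r hr _ => ?_⟩
  rw [Real.volume_pi_closedBall a hr.le, Fintype.card_fin, mul_pow, Real.rpow_natCast]

theorem generic_real (V : Type) [Countable V] (n : ℕ) (hn : 0 < (n : ℝ))
    (σ : V → (Fin n → ℝ)) : Generic (volume : Measure (Fin n → ℝ))
      (fun (x : V) ξ => (n : ℝ) * max 0 (Real.log (1 / dist ξ (σ x)))) :=
  generic_one (V := V) (F := Fin n → ℝ) volume hn (balls_pi n) σ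

/-- **The truncated Vojta inequality near almost every target.** Let `K` be a number field.

(1) Let `S` be a finite set of finite places, `D` the sum of `q ≥ n + 1` hyperplanes of `ℙ^n` over `K`
in general position, `n ≥ 1`. Let `K → ℝ` be an embedding. For almost all `ξ ∈ ℝ ^ n` the proximity
`Λ(P) = n log⁺ (1 / |ξ - P|)` of ALL points `P ∈ ℙ^n(K)` off `D` satisfies
`Λ ≤ ρ N_S^{(1)}(D, P) + ε h(P) + C` and
`Λ ≤ (n + 1) (1 - n / (q - 1)) h + n (n + 1) / (q (q - 1)) N_S^{(1)} + ε h + C`;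
if `Λ ≥ thr h`, the inequality `(q - n - 1) h ≤ N_S^{(1)} + ε h + C` of Q1 holds (`thr < n + 1`), and if
`Λ ≥ (n + 1) h` (best simultaneous approximations), `q h ≤ N_S^{(1)} + ε h + C`. The same holds for
almost all targets in finitely many metric spaces (`AlmostAll`), for instance completions `K_v ^ n`.

(2) Let `S` be a finite set of primes and `n ≥ 3`. For almost all targets `ξ` in finitely many metric
spaces all points `P` of the hyperplane `x_1 + ⋯ + x_n = 0` over `K` without vanishing subsums satisfy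
`Λ(P) ≤ (1 - 1 / C(n, ⌊n / 2⌋)) rad_S(P) + ε h(P) + C`; so the `n`-term abc inequality
`h(P) ≤ rad_S(P) + ε h(P) + C` holds for those with `Λ(P) ≥ (1 - 1 / C(n, ⌊n / 2⌋)) h(P)`. -/
theorem result (K : Type) [Field K] [NumberField K] :
    (∀ (S : Finset (FinitePlace K)) (n q : ℕ), 1 ≤ n → n + 1 ≤ q →
      ∀ a : Fin q → Fin (n + 1) → K,
      (∀ I : Finset (Fin q), I.card = n + 1 → LinearIndependent K (fun i : I => a i)) →
        thr n q < n + 1 ∧
        (∀ φ : K →+* ℝ, ∀ᵐ ξ : Fin n → ℝ,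
          Holds S a (fun P => n * max 0 (Real.log (1 / dist ξ (affine φ P))))) ∧
        AlmostAll (Holds S a)) ∧
    ∀ S : Set (HeightOneSpectrum (𝓞 K)), S.Finite → ∀ n : ℕ, 3 ≤ n →
      AlmostAll (HoldsAbc S n) := by
  have hK := countable_K K
  refine ⟨fun S n q hn hq a ha => ?_, fun S hS n hn => ?_⟩
  · have := countable_proj K (n + 1)
    have hn0 : (0 : ℝ) < n := by exact_mod_cast hn
    refine ⟨thr_lt hn hq, fun φ => ?_, ?_⟩
    · exact holds_of_generic S n q hn hq a ha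
        (generic_real (ℙ K (Fin (n + 1) → K)) n hn0 (fun P => affine φ P))
    · intro ι _ F _ _ _ μ _ e σ he hμ
      exact holds_of_generic S n q hn hq a ha (generic_pi μ he hμ σ)
  · have := countable_proj K n
    intro ι _ F _ _ _ μ _ e σ he hμ
    exact abc_of_generic S hS n hn (generic_pi μ he hμ σ)

end Pool.Agent.Results.MP_44a246_nt.HyperplanesAndTargets
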