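import Mathlib
import Pool.Agent.X286.Tr.Pts

/-!
# Truncated counting functions of arrangements with triple flats: points of all heights

Let `D` be the sum of the hyperplanes `L i = 0` of `P ^ n` over `ℚ`, `n ≥ 1`. We call two of the
hyperplanes adjacent if their intersection (of codimension two) is contained in a third hyperplane of
the arrangement. We consider the arrangements for which the forms of some connected component of this
graph have no common zero. The complements are of log general type (the truncated counting function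
of `D` and of its reduced preimage in a blow-up in which it has normal crossings are the same); examples
are the arrangements of the irreducible Weyl groups of rank `≥ 2`, and the moduli spaces `M_{0, n + 3}`
of genus zero curves with `n + 3` points.

Let `S` be a finite set of primes, and `m`, `ε > 0`. We consider the rational points `P` off `D` with at
most `m` different exponents outside `S` in the prime factorisations of the `L i (P)`. There is `κ` such
that `h(P) ≤ κ N^(1)_S(D, P)` for all these points with `N^(1)_S(D, P) ≤ log X`, of whatever height,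
apart from those on `C X ^ ε` hyperplanes of the form `L i = r L j`, `L i` and `L j` adjacent. If there
are forms without common zero any two of which are adjacent, then there are at most `C X ^ ε`
exceptional points; this includes `M_{0, n + 3}`.

There is no upper bound for the heights (for the irreducible arrangements in
`MP_9ec3f0_nt.IrreducibleArrangements` heights are bounded by `X ^ δ`).

Method: a relation with three terms between `L i`, `L j` and `L k` gives an abc triple for each point,
with few exponents after the removal of the common factor, to which the counting theorem for abc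
triples consisting of products of few powers (`MP_2ec8a3_nt.FewPowersAllHeights`) applies. If all these
triples are small then the height is small. In the second case, if one quotient of two forms of the
clique is large, then for each third form of the clique one of its quotients by the first two is large,
hence exceptional, and so the point is determined up to `C X ^ ε` possibilities.
-/

set_option autoImplicit false

namespace Pool.Agent.Results.MP_44a246_nt.TripleFlatsAllHeights

open Finset

/-- the value of the linear form `L i` at the integral vector `x` -/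
def val {n q : ℕ} (L : Fin q → Fin (n + 1) → ℤ) (x : Fin (n + 1) → ℤ) (i : Fin q) : ℤ :=
  ∑ k, L i k * x k

/-- the linear form `L i` as a vector -/
def vec {n q : ℕ} (L : Fin q → Fin (n + 1) → ℤ) (i : Fin q) : Fin (n + 1) → ℚ :=
  fun k => (L i k : ℚ)

/-- the hyperplanes `L i = 0` and `L j = 0` are different, and their intersection is contained in a
third hyperplane `L k = 0` of the arrangement: there is a relation between `L i`, `L j`, `L k` with
nonzero coefficients -/
def Adjacent {n q : ℕ} (L : Fin q → Fin (n + 1) → ℤ) (i j : Fin q) : Prop :=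
  LinearIndependent ℚ ![vec L i, vec L j] ∧ ∃ (k : Fin q) (a b c : ℤ), a ≠ 0 ∧ b ≠ 0 ∧ c ≠ 0 ∧
    ∀ l, a * L i l + b * L j l + c * L k l = 0

/-- the forms in some connected component for adjacency span all linear forms -/
def Connected {n q : ℕ} (L : Fin q → Fin (n + 1) → ℤ) : Prop :=
  ∃ i, Submodule.span ℚ (vec L '' {j | Relation.ReflTransGen (Adjacent L) i j}) = ⊤

/-- there is a set `B` of forms any two of which are adjacent and which span all linear forms -/
def Clique {n q : ℕ} (L : Fin q → Fin (n + 1) → ℤ) : Prop :=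
  ∃ B : Set (Fin q), Submodule.span ℚ (vec L '' B) = ⊤ ∧ B.Pairwise (Adjacent L)

/-- the arrangement contains the hyperplanes `x_i = 0` and `x_i = x_j`; the complement of these is
the moduli space `M_{0, n + 3}` of `n + 3` different points `0, ∞, x_0, …, x_n` of the line -/
def ContainsBraid {n q : ℕ} (L : Fin q → Fin (n + 1) → ℤ) : Prop :=
  (∀ i : Fin (n + 1), ∃ j, L j = Pi.single i 1) ∧
    ∀ i i' : Fin (n + 1), i ≠ i' → ∃ j, L j = Pi.single i 1 - Pi.single i' 1 ∨
      L j = Pi.single i' 1 - Pi.single i 1

/-- `x` is a vector of coprime integral coordinates of a rational point of `P ^ n` which is on none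
of the hyperplanes -/
def IsPoint {n q : ℕ} (L : Fin q → Fin (n + 1) → ℤ) (x : Fin (n + 1) → ℤ) : Prop :=
  univ.gcd x = 1 ∧ ∀ i, val L x i ≠ 0

/-- the truncated counting function `N^(1)_S(D, x)`: the sum of `log p` over the primes `p` not in
`S` which divide one of the `L i (x)` -/
noncomputable def counting {n q : ℕ} (S : Finset ℕ) (L : Fin q → Fin (n + 1) → ℤ)
    (x : Fin (n + 1) → ℤ) : ℝ :=
  ∑ p ∈ (∏ i, val L x i).natAbs.primeFactors \ S, Real.log p

/-- the exponents of the primes not in `S` in the factorisations of the `L i (x)` -/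
def exponents {n q : ℕ} (S : Finset ℕ) (L : Fin q → Fin (n + 1) → ℤ) (x : Fin (n + 1) → ℤ) :
    Finset ℕ :=
  univ.biUnion fun i : Fin q => ((val L x i).natAbs.primeFactors \ S).image
    (val L x i).natAbs.factorization

/-- the logarithmic height -/
noncomputable def height {n : ℕ} (x : Fin (n + 1) → ℤ) : ℝ :=
  Real.log ((univ.sup fun k => (x k).natAbs : ℕ) : ℝ)

/-- the points (each with two vectors `x`, `-x`) off `D` with at most `m` different exponents, with
`N^(1)_S(D, x) ≤ log X` and with `κ N^(1)_S(D, x) < h(x)`; there is no upper bound on `h(x)` -/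
def Exceptional {n q : ℕ} (S : Finset ℕ) (L : Fin q → Fin (n + 1) → ℤ) (m : ℕ) (κ X : ℝ) :
    Set (Fin (n + 1) → ℤ) :=
  {x | IsPoint L x ∧ (exponents S L x).card ≤ m ∧ counting S L x ≤ Real.log X ∧
    κ * counting S L x < height x}

open Pool.Agent.X286.Tr

theorem rel3 {n q : ℕ} {L : Fin q → Fin (n + 1) → ℤ} {i j : Fin q} (h : Adjacent L i j) :
    Rel3 L i j := h.2

/-- the radical -/
def rad {n q : ℕ} (S : Finset ℕ) (L : Fin q → Fin (n + 1) → ℤ) (x : Fin (n + 1) → ℤ) : ℕ :=
  ∏ p ∈ (∏ i, val L x i).natAbs.primeFactors \ S, p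

theorem rad_pos {n q : ℕ} (S : Finset ℕ) (L : Fin q → Fin (n + 1) → ℤ) (x : Fin (n + 1) → ℤ) :
    0 < rad S L x := prod_pos fun _ hp => (prime_of hp).pos

theorem counting_eq {n q : ℕ} (S : Finset ℕ) (L : Fin q → Fin (n + 1) → ℤ)
    (x : Fin (n + 1) → ℤ) : counting S L x = Real.log (rad S L x) := by
  rw [counting, rad]
  push_cast
  rw [Real.log_prod]
  intro p hp
  exact_mod_cast (prime_of hp).ne_zero

theorem adm {n q : ℕ} {S : Finset ℕ} {L : Fin q → Fin (n + 1) → ℤ} {x : Fin (n + 1) → ℤ} {m : ℕ}
    (hx : IsPoint L x) (hm : (exponents S L x).card ≤ m) : Adm S L m x (rad S L x) := by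
  refine ⟨hx.2, fun i => ?_, hm⟩
  refine prod_le_prod_of_subset_of_one_le' ?_ fun p hp _ => (prime_of hp).one_lt.le
  refine sdiff_subset_sdiff (fun p hp => ?_) (le_refl S)
  rw [Nat.mem_primeFactors] at hp ⊢
  refine ⟨hp.1, hp.2.1.trans (Int.natAbs_dvd_natAbs.2 (Finset.dvd_prod_of_mem _ (mem_univ i))), ?_⟩
  exact Int.natAbs_ne_zero.2 (prod_ne_zero_iff.2 fun j _ => hx.2 j)

theorem facts {n q : ℕ} {S : Finset ℕ} {L : Fin q → Fin (n + 1) → ℤ} {x : Fin (n + 1) → ℤ} {m κ : ℕ}
    {X : ℝ} (hX : 1 ≤ X) (hx : x ∈ Exceptional S L m κ X) : univ.gcd x = 1 ∧ 0 < rad S L x ∧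
      rad S L x ≤ ⌊X⌋₊ ∧ Adm S L m x (rad S L x) ∧ ∃ k, ((rad S L x : ℕ) : ℤ) ^ κ < |x k| := by
  obtain ⟨h1, h2, h3, h4⟩ := hx
  have hr := rad_pos S L x
  have hr' : (0 : ℝ) < rad S L x := by exact_mod_cast hr
  rw [counting_eq] at h3 h4
  refine ⟨h1.1, hr, Nat.le_floor ((Real.log_le_log_iff hr' (by linarith)).1 h3), adm h1 h2, ?_⟩
  obtain ⟨k, -, hk⟩ := Finset.exists_mem_eq_sup univ ⟨0, mem_univ _⟩
    (fun k : Fin (n + 1) => (x k).natAbs)
  refine ⟨k, ?_⟩
  rw [Int.abs_eq_natAbs, ← hk]
  have h5 : (0 : ℝ) < ((univ.sup fun k => (x k).natAbs : ℕ) : ℝ) := by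
    by_contra hcon
    have h6 : ((univ.sup fun k => (x k).natAbs : ℕ) : ℝ) = 0 :=
      le_antisymm (not_lt.1 hcon) (Nat.cast_nonneg _)
    rw [height, h6, Real.log_zero] at h4
    have h7 : 0 ≤ Real.log (rad S L x) := Real.log_nonneg (by exact_mod_cast hr)
    have h8 : (0 : ℝ) ≤ κ := Nat.cast_nonneg _
    nlinarith
  rw [height, ← Real.log_pow, Real.log_lt_log_iff (by positivity) h5] at h4
  exact_mod_cast h4

theorem floor_le {X ε C : ℝ} (hX : 1 ≤ X) (hε : 0 < ε) (hC : 0 < C) :
    C * ((⌊X⌋₊ : ℕ) : ℝ) ^ ε ≤ C * X ^ ε :=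
  mul_le_mul_of_nonneg_left (Real.rpow_le_rpow (Nat.cast_nonneg _)
    (Nat.floor_le (by linarith)) hε.le) hC.le

/-- a connected arrangement in positive dimension has adjacent forms -/
theorem exists_adj {n q : ℕ} (hn : 1 ≤ n) {L : Fin q → Fin (n + 1) → ℤ} {i : Fin q}
    (h : Submodule.span ℚ (vec L '' {j | Relation.ReflTransGen (Adjacent L) i j}) = ⊤) :
    ∃ i j, Adjacent L i j := by
  by_contra hcon
  push Not at hcon
  have h1 : {j | Relation.ReflTransGen (Adjacent L) i j} = {i} := by
    ext j
    rw [Set.mem_ofPred_eq, Set.mem_singleton_iff]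
    constructor
    · intro h2
      rcases Relation.ReflTransGen.cases_head h2 with h3 | ⟨k, h3, -⟩
      · exact h3.symm
      · exact absurd h3 (hcon i k)
    · rintro rfl
      exact Relation.ReflTransGen.refl
  rw [h1, Set.image_singleton] at h
  have h2 := finrank_span_le_card (R := ℚ) ({vec L i} : Set (Fin (n + 1) → ℚ))
  rw [h, finrank_top, Module.finrank_fin_fun] at h2
  simp at h2
  omega

theorem clique_of_braid {n q : ℕ} {L : Fin q → Fin (n + 1) → ℤ} (h : ContainsBraid L) :
    Clique L := by
  classical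
  obtain ⟨h1, h2⟩ := h
  choose f hf using h1
  refine ⟨Set.range f, ?_, ?_⟩
  · rw [eq_top_iff]
    intro w _
    have h3 : w = ∑ k, w k • vec L (f k) := by
      funext l
      rw [Finset.sum_apply]
      simp only [vec, hf, Pi.smul_apply, smul_eq_mul]
      rw [Finset.sum_eq_single l]
      · rw [Pi.single_eq_same]
        simp
      · intro k _ hk
        rw [Pi.single_eq_of_ne hk.symm]
        simp
      · intro h
        exact absurd (mem_univ l) h
    rw [h3]
    exact Submodule.sum_mem _ fun k _ => Submodule.smul_mem _ _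
      (Submodule.subset_span ⟨f k, ⟨k, rfl⟩, rfl⟩)
  · rintro _ ⟨i, rfl⟩ _ ⟨i', rfl⟩ hne
    have hii : i ≠ i' := fun h => hne (by rw [h])
    refine ⟨?_, ?_⟩
    · rw [LinearIndependent.pair_iff]
      intro s t hst
      have e1 := congrFun hst i
      have e2 := congrFun hst i'
      simp only [vec, hf, Pi.add_apply, Pi.smul_apply, smul_eq_mul, Pi.zero_apply,
        Pi.single_eq_same, Pi.single_eq_of_ne hii, Pi.single_eq_of_ne hii.symm] at e1 e2
      push_cast at e1 e2
      constructor <;> linarith
    · obtain ⟨j, hj | hj⟩ := h2 i i' hii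
      · refine ⟨j, 1, -1, -1, one_ne_zero, by norm_num, by norm_num, fun l => ?_⟩
        rw [hf, hf, hj, Pi.sub_apply]
        ring
      · refine ⟨j, 1, -1, 1, one_ne_zero, by norm_num, by norm_num, fun l => ?_⟩
        rw [hf, hf, hj, Pi.sub_apply]
        ring

/-- **Theorem.** Let `D` be the sum of the hyperplanes `L i = 0` of an arrangement in `P ^ n` over `ℚ`,
`S` a finite set of primes, `m` a natural number and `ε > 0`.

1. If `n ≥ 1` and the arrangement is connected by triple flats, then there are `κ` and `C` such that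
for every `X ≥ 1` there are at most `C X ^ ε` hyperplanes `L i = r L j`, with `L i`, `L j` adjacent,
which contain all points `P` off `D`, of whatever height, with `N^(1)_S(D, P) ≤ log X`, with at most `m`
different exponents outside `S` in the factorisations of the `L i (P)`, and with
`κ N^(1)_S(D, P) < h(P)`.

2. If some forms any two of which are adjacent span all forms, then there are `κ` and `C` such that
for every `X ≥ 1` the number of all these points is at most `C X ^ ε`.

3. The hypothesis in 2 is satisfied if the arrangement contains the hyperplanes `x_i = 0` and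
`x_i = x_j`. -/
theorem result :
    (∀ (n q : ℕ) (L : Fin q → Fin (n + 1) → ℤ), 1 ≤ n → Connected L → ∀ (S : Finset ℕ) (m : ℕ)
      (ε : ℝ), 0 < ε → ∃ κ C : ℝ, 0 < C ∧ ∀ X : ℝ, 1 ≤ X → ∃ 𝓗 : Finset (Fin q × Fin q × ℚ),
        (𝓗.card : ℝ) ≤ C * X ^ ε ∧ (∀ h ∈ 𝓗, Adjacent L h.1 h.2.1) ∧
        ∀ x ∈ Exceptional S L m κ X,
          ∃ h ∈ 𝓗, (val L x h.1 : ℚ) = h.2.2 * val L x h.2.1) ∧
    (∀ (n q : ℕ) (L : Fin q → Fin (n + 1) → ℤ), Clique L → ∀ (S : Finset ℕ) (m : ℕ)
      (ε : ℝ), 0 < ε → ∃ κ C : ℝ, 0 < C ∧ ∀ X : ℝ, 1 ≤ X →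
        (Exceptional S L m κ X).Finite ∧ ((Exceptional S L m κ X).ncard : ℝ) ≤ C * X ^ ε) ∧
    (∀ (n q : ℕ) (L : Fin q → Fin (n + 1) → ℤ), ContainsBraid L → Clique L) := by
  refine ⟨fun n q L hn hL S m ε hε => ?_, fun n q L hL S m ε hε => ?_,
    fun n q L hL => clique_of_braid hL⟩
  · obtain ⟨i0, hi0⟩ := hL
    obtain ⟨κ, C, hC, h⟩ := hyper L (Adjacent L) (fun i j => rel3) i0 hi0 (exists_adj hn hi0) S m hε
    refine ⟨κ, C, hC, fun X hX => ?_⟩
    obtain ⟨𝓗, h1, h2, h3⟩ := h ⌊X⌋₊ (Nat.le_floor (by exact_mod_cast hX))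
    refine ⟨𝓗, h1.trans (floor_le hX hε hC), h2, fun x hx => ?_⟩
    obtain ⟨e1, e2, e3, e4, e5⟩ := facts hX hx
    exact h3 x _ e1 e2 e3 e4 e5
  · obtain ⟨B, hB, hB2⟩ := hL
    obtain ⟨κ, C, hC, h⟩ := points L (Adjacent L) (fun i j => rel3) B hB
      (fun i hi j hj hij => hB2 hi hj hij) S m hε
    refine ⟨κ, C, hC, fun X hX => ?_⟩
    obtain ⟨h1, h2⟩ := h ⌊X⌋₊ (Nat.le_floor (by exact_mod_cast hX)) (Exceptional S L m κ X)
      (fun x hx => by
        obtain ⟨e1, e2, e3, e4, e5⟩ := facts hX hx
        exact ⟨e1, _, e2, e3, e4, e5⟩)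
    exact ⟨h1, h2.trans (floor_le hX hε hC)⟩

end Pool.Agent.Results.MP_44a246_nt.TripleFlatsAllHeights
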